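import Mathlib

/-!
# A transfinite choice of pairwise unrelated values
-/

namespace Pool.Agent.R612.EG

open Cardinal

theorem diag {Ω : Type} (hΩ : #Ω ≤ 𝔠) (R : (ℕ → Bool) → (ℕ → Bool) → Prop)
    (hR : ∀ x y, R x y → R y x) (Φ : Ω → (ℕ → Bool) → (ℕ → Bool))
    (hΦ : ∀ ω w, {z | R (Φ ω z) w}.Countable) :
    ∃ p : Ω → (ℕ → Bool), ∀ ω ω', ω ≠ ω' → ¬ R (Φ ω (p ω)) (Φ ω' (p ω')) := by
  classical
  have hcard : #Ω ≤ #(𝔠 : Cardinal.{0}).ord.ToType := by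
    rw [Cardinal.mk_ord_toType]
    exact hΩ
  obtain ⟨e⟩ := Cardinal.le_def _ _ |>.1 hcard
  let r : Ω → Ω → Prop := fun a b => e a < e b
  have wf : WellFounded r := InvImage.wf e wellFounded_lt
  have hex : ∀ (ω : Ω) (q : ∀ ω', r ω' ω → (ℕ → Bool)), ∃ z, ∀ ω' (h : r ω' ω),
      ¬ R (Φ ω z) (Φ ω' (q ω' h)) := by
    intro ω q
    by_contra hcon
    push Not at hcon
    have huniv : (Set.univ : Set (ℕ → Bool)) ⊆
        ⋃ a : {ω' // r ω' ω}, {z | R (Φ ω z) (Φ a.1 (q a.1 a.2))} := by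
      intro z _
      obtain ⟨ω', h, hz⟩ := hcon z
      exact Set.mem_iUnion.2 ⟨⟨ω', h⟩, hz⟩
    have h1 : #(Set.univ : Set (ℕ → Bool)) = 𝔠 := by
      rw [Cardinal.mk_univ]
      simp
    have h2 : #{ω' // r ω' ω} < 𝔠 := by
      have h3 : #{ω' // r ω' ω} ≤ #(Set.Iio (e ω)) := by
        refine Cardinal.mk_le_of_injective (f := fun a : {ω' // r ω' ω} =>
          (⟨e a.1, a.2⟩ : Set.Iio (e ω))) ?_
        intro a b hab
        apply Subtype.ext
        apply e.injective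
        exact congrArg Subtype.val hab
      exact lt_of_le_of_lt h3 (Cardinal.mk_Iio_toType_ord_lt (e ω))
    have h4 := Cardinal.mk_le_mk_of_subset huniv
    rw [h1] at h4
    have h5 : #(⋃ a : {ω' // r ω' ω}, {z | R (Φ ω z) (Φ a.1 (q a.1 a.2))}) ≤
        #{ω' // r ω' ω} * ℵ₀ := by
      refine (Cardinal.mk_iUnion_le _).trans ?_
      gcongr
      apply ciSup_le'
      intro a
      exact (hΦ ω _).le_aleph0
    have h6 : #{ω' // r ω' ω} * ℵ₀ < 𝔠 :=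
      Cardinal.mul_lt_of_lt Cardinal.aleph0_le_continuum h2 Cardinal.aleph0_lt_continuum
    exact absurd (h4.trans h5) (not_le.2 h6)
  choose g hg using hex
  let p : Ω → (ℕ → Bool) := wf.fix g
  have hp : ∀ ω, p ω = g ω (fun ω' _ => p ω') := fun ω => wf.fix_eq g ω
  have hlt : ∀ ω ω', e ω' < e ω → ¬ R (Φ ω (p ω)) (Φ ω' (p ω')) := by
    intro ω ω' h
    rw [hp ω]
    exact hg ω _ ω' h
  refine ⟨p, fun ω ω' hne hR' => ?_⟩
  rcases lt_trichotomy (e ω) (e ω') with h | h | h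
  · exact hlt ω' ω h (hR _ _ hR')
  · exact hne (e.injective h)
  · exact hlt ω ω' h hR'

end Pool.Agent.R612.EG
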