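import Pool.Agent.R612.EG.Graph

/-!
# Edge-query games on countable graphs: definitions and runs
-/

namespace Pool.Agent.R612.EG

/-- The edges of the complete graph on `ℕ`: two-element subsets of `ℕ`. -/
abbrev Edge : Type := {e : Sym2 ℕ // ¬ e.IsDiag}

/-- A turn: the edge chosen by Seeker and the colour given by Hider (`true` = green). -/
abbrev Move : Type := Edge × Bool

/-- The history of the first `n` turns of a run (most recent first). -/
def hist (f : ℕ → Move) : ℕ → List Move
  | 0 => []
  | n + 1 => f n :: hist f n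

/-- Seeker always chooses a white edge. -/
def Legal (f : ℕ → Move) : Prop := ∀ m n, (f m).1 = (f n).1 → m = n

/-- The green edges at the end of the run. -/
def Green (f : ℕ → Move) : Set Edge := {e | ∃ n, f n = (e, true)}

/-- The white edges at the end of the run. -/
def White (f : ℕ → Move) : Set Edge := {e | ∀ n, (f n).1 ≠ e}

/-- The graphs `P` with `Green ⊆ P ⊆ Green ∪ White`. -/
def Final (f : ℕ → Move) : Set (SimpleGraph ℕ) :=
  {P | ∀ e : Edge, (e ∈ Green f → e.1 ∈ P.edgeSet) ∧ (e.1 ∈ P.edgeSet → e ∈ Green f ∨ e ∈ White f)}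

/-- Seeker wins the run for the property `S`. -/
def SeekerWins (S : Set (SimpleGraph ℕ)) (f : ℕ → Move) : Prop :=
  (White f).Nonempty ∧ (Final f ⊆ S ∨ Final f ∩ S = ∅)

/-- `σ` is a winning strategy for Seeker: against all answers its moves are legal and it wins. -/
def SeekerStrategyWins (S : Set (SimpleGraph ℕ)) (σ : List Move → Edge) : Prop :=
  ∀ f : ℕ → Move, (∀ n, (f n).1 = σ (hist f n)) → Legal f ∧ SeekerWins S f

/-- `τ` is a winning strategy for Hider: it wins all legal runs in which Hider follows it. -/
def HiderStrategyWins (S : Set (SimpleGraph ℕ)) (τ : List Move → Edge → Bool) : Prop :=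
  ∀ f : ℕ → Move, Legal f → (∀ n, (f n).2 = τ (hist f n) (f n).1) → ¬ SeekerWins S f

/-- A graph property: closed under isomorphism. -/
def IsGraphProperty (S : Set (SimpleGraph ℕ)) : Prop :=
  ∀ G G' : SimpleGraph ℕ, Nonempty (G ≃g G') → G ∈ S → G' ∈ S

/-! ### Basic facts -/

theorem hist_length (f : ℕ → Move) (n : ℕ) : (hist f n).length = n := by
  induction n with
  | zero => rfl
  | succ n ih => simp [hist, ih]

theorem mem_hist {f : ℕ → Move} {n : ℕ} {x : Move} : x ∈ hist f n ↔ ∃ m < n, f m = x := by
  induction n with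
  | zero => simp [hist]
  | succ n ih =>
    rw [hist, List.mem_cons, ih]
    constructor
    · rintro (h | ⟨m, hm, h⟩)
      · exact ⟨n, by omega, h.symm⟩
      · exact ⟨m, by omega, h⟩
    · rintro ⟨m, hm, h⟩
      by_cases hmn : m = n
      · left
        rw [← h, hmn]
      · right
        exact ⟨m, by omega, h⟩

/-- The graph `G` agrees with all answers in `h`. -/
def Fits (h : List Move) (G : SimpleGraph ℕ) : Prop :=
  ∀ x ∈ h, (x.1.1 ∈ G.edgeSet ↔ x.2 = true)

theorem mem_final {f : ℕ → Move} (hf : Legal f) {G : SimpleGraph ℕ} :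
    G ∈ Final f ↔ ∀ n, ((f n).1.1 ∈ G.edgeSet ↔ (f n).2 = true) := by
  constructor
  · intro h n
    constructor
    · intro h1
      rcases (h (f n).1).2 h1 with ⟨m, hm⟩ | h2
      · have : m = n := hf m n (by rw [hm])
        rw [← this, hm]
      · exact absurd rfl (h2 n)
    · intro h1
      exact (h (f n).1).1 ⟨n, Prod.ext rfl h1⟩
  · intro h e
    constructor
    · rintro ⟨n, hn⟩
      have := (h n).2 (by rw [hn])
      rwa [hn] at this
    · intro he
      by_cases hw : e ∈ White f
      · exact Or.inr hw
      · left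
        simp only [White, Set.mem_setOf_eq, not_forall, not_not] at hw
        obtain ⟨n, hn⟩ := hw
        have h1 := h n
        rw [hn] at h1
        exact ⟨n, Prod.ext hn (h1.1 he)⟩

theorem final_fits {f : ℕ → Move} (hf : Legal f) {G : SimpleGraph ℕ} (hG : G ∈ Final f) (n : ℕ) :
    Fits (hist f n) G := by
  intro x hx
  obtain ⟨m, _, rfl⟩ := mem_hist.1 hx
  exact (mem_final hf).1 hG m

theorem final_of_fits {f : ℕ → Move} (hf : Legal f) {G : SimpleGraph ℕ}
    (h : ∀ n, Fits (hist f n) G) : G ∈ Final f := by
  rw [mem_final hf]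
  intro n
  exact h (n + 1) (f n) (mem_hist.2 ⟨n, by omega, rfl⟩)

/-- The edges occurring in a history. -/
def dom (h : List Move) : List Edge := h.map Prod.fst

theorem mem_dom {h : List Move} {e : Edge} : e ∈ dom h ↔ ∃ c, (e, c) ∈ h := by
  unfold dom
  rw [List.mem_map]
  constructor
  · rintro ⟨x, hx, rfl⟩
    exact ⟨x.2, hx⟩
  · rintro ⟨c, hc⟩
    exact ⟨(e, c), hc, rfl⟩

/-- Histories consistent with a strategy of Hider. -/
inductive Cons (τ : List Move → Edge → Bool) : List Move → Prop
  | nil : Cons τ []
  | cons {h : List Move} {e : Edge} (hh : Cons τ h) (he : e ∉ dom h) : Cons τ ((e, τ h e) :: h)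

theorem Cons.suffix {τ : List Move → Edge → Bool} {h h' : List Move} (hs : h <:+ h')
    (hc : Cons τ h') : Cons τ h := by
  induction hc with
  | nil =>
    rw [List.suffix_nil] at hs
    rw [hs]
    exact .nil
  | @cons h0 e hh he ih =>
    rw [List.suffix_cons_iff] at hs
    rcases hs with hs | hs
    · rw [hs]
      exact .cons hh he
    · exact ih hs

theorem Cons.inv {τ : List Move → Edge → Bool} {x : Move} {h : List Move}
    (hc : Cons τ (x :: h)) : x.2 = τ h x.1 ∧ x.1 ∉ dom h ∧ Cons τ h := by
  cases hc with
  | cons hh he => exact ⟨rfl, he, hh⟩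

/-- Runs in which Hider follows `τ`. -/
def Follows (τ : List Move → Edge → Bool) (f : ℕ → Move) : Prop :=
  Legal f ∧ ∀ n, (f n).2 = τ (hist f n) (f n).1

theorem follows_iff {τ : List Move → Edge → Bool} {f : ℕ → Move} :
    Follows τ f ↔ ∀ n, Cons τ (hist f n) := by
  constructor
  · rintro ⟨h1, h2⟩ n
    induction n with
    | zero => exact .nil
    | succ n ih =>
      have : f n = ((f n).1, τ (hist f n) (f n).1) := Prod.ext rfl (h2 n)
      rw [hist, this]
      refine .cons ih ?_
      intro hmem
      rw [mem_dom] at hmem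
      obtain ⟨c, hc⟩ := hmem
      obtain ⟨m, hm, hm'⟩ := mem_hist.1 hc
      have := h1 m n (by rw [hm'])
      omega
  · intro h
    have hinv : ∀ n, (f n).2 = τ (hist f n) (f n).1 ∧ (f n).1 ∉ dom (hist f n) := by
      intro n
      have := (h (n + 1)).inv
      exact ⟨this.1, this.2.1⟩
    refine ⟨?_, fun n => (hinv n).1⟩
    intro m n hmn
    rcases lt_trichotomy m n with hlt | heq | hlt
    · exfalso
      apply (hinv n).2
      rw [mem_dom]
      refine ⟨(f m).2, mem_hist.2 ⟨m, hlt, ?_⟩⟩
      rw [← hmn]
    · exact heq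
    · exfalso
      apply (hinv m).2
      rw [mem_dom]
      refine ⟨(f n).2, mem_hist.2 ⟨n, hlt, ?_⟩⟩
      rw [hmn]

/-- Limits of increasing chains of histories. -/
theorem limit_run (τ : List Move → Edge → Bool) (p : ℕ → List Move)
    (hp : ∀ k, p k <:+ p (k + 1)) (hlen : ∀ N, ∃ k, N ≤ (p k).length)
    (hc : ∀ k, Cons τ (p k)) :
    ∃ f, Follows τ f ∧ ∀ k, hist f (p k).length = p k := by
  classical
  have hmono : ∀ k l, k ≤ l → p k <:+ p l := by
    intro k l hkl
    induction l, hkl using Nat.le_induction with
    | base => exact List.suffix_refl _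
    | succ l _ ih => exact ih.trans (hp l)
  choose kk hkk using hlen
  -- the `n`-th move
  let f : ℕ → Move := fun n => ((p (kk (n + 1))).reverse[n]'(by
    rw [List.length_reverse]
    exact hkk (n + 1)))
  have hval : ∀ n k (h : n < (p k).reverse.length), f n = (p k).reverse[n] := by
    intro n k h
    have hpre : ∀ k l (h1 : n < (p k).reverse.length) (h2 : n < (p l).reverse.length), k ≤ l →
        (p k).reverse[n] = (p l).reverse[n] := by
      intro k l h1 h2 hkl
      obtain ⟨t, ht⟩ := hmono k l hkl
      have : (p l).reverse = (p k).reverse ++ t.reverse := by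
        rw [← ht, List.reverse_append]
      simp only [this]
      rw [List.getElem_append_left h1]
    rcases le_total (kk (n + 1)) k with hle | hle
    · exact hpre _ _ _ _ hle
    · exact (hpre _ _ _ _ hle).symm
  have hhist : ∀ k n, n ≤ (p k).length → hist f n = ((p k).reverse.take n).reverse := by
    intro k n
    induction n with
    | zero => intro _; simp [hist]
    | succ n ih =>
      intro hn
      have hn' : n < (p k).reverse.length := by rw [List.length_reverse]; omega
      rw [hist, ih (by omega), hval n k hn', List.take_succ_eq_append_getElem hn']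
      simp
  have hh : ∀ k, hist f (p k).length = p k := by
    intro k
    rw [hhist k _ (le_refl _)]
    have : (p k).length = (p k).reverse.length := by simp
    rw [this, List.take_length, List.reverse_reverse]
  refine ⟨f, ?_, hh⟩
  rw [follows_iff]
  intro n
  obtain ⟨k, hk⟩ : ∃ k, n ≤ (p k).length := ⟨_, hkk n⟩
  rw [hhist k n hk]
  refine Cons.suffix ?_ (hc k)
  have h1 : (p k).reverse.take n <+: (p k).reverse := List.take_prefix _ _
  have h2 := List.reverse_suffix.2 h1
  rwa [List.reverse_reverse] at h2

instance : Countable Edge := inferInstance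

/-- Edge from two distinct vertices. -/
def mk (a b : ℕ) (h : a ≠ b) : Edge := ⟨s(a, b), by simpa using h⟩

theorem exists_mk (e : Edge) : ∃ a b, ∃ h : a ≠ b, e = mk a b h := by
  obtain ⟨e, he⟩ := e
  induction e using Sym2.ind with
  | _ a b =>
    have : a ≠ b := by simpa using he
    exact ⟨a, b, this, rfl⟩

theorem mk_eq {a b c d : ℕ} {h : a ≠ b} {h' : c ≠ d} :
    mk a b h = mk c d h' ↔ (a = c ∧ b = d) ∨ (a = d ∧ b = c) := by
  unfold mk
  rw [Subtype.mk.injEq, Sym2.eq_iff]

theorem mk_mem {a b : ℕ} {h : a ≠ b} {G : SimpleGraph ℕ} :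
    (mk a b h).1 ∈ G.edgeSet ↔ G.Adj a b := Iff.rfl

instance : Infinite Edge := by
  refine Infinite.of_injective (fun n : ℕ => mk 0 (n + 1) (by omega)) ?_
  intro a b h
  have h := mk_eq.1 h
  omega

theorem exists_enum : ∃ en : ℕ → Edge, Function.Surjective en := by
  haveI : Nonempty Edge := ⟨mk 0 1 (by omega)⟩
  exact exists_surjective_nat Edge

/-- Query everything outside `Z` from the position `h`. -/
theorem complete_run (τ : List Move → Edge → Bool) {h : List Move} (hc : Cons τ h) (Z : Set Edge)
    (hZ : Zᶜ.Infinite) (hdom : ∀ e ∈ dom h, e ∉ Z) :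
    ∃ f, Follows τ f ∧ hist f h.length = h ∧ ∀ e, e ∈ White f ↔ e ∈ Z := by
  classical
  obtain ⟨en, hen⟩ := exists_enum
  let step : List Move → Edge → List Move := fun q e =>
    if e ∈ Z ∨ e ∈ dom q then q else (e, τ q e) :: q
  let p : ℕ → List Move := fun k => Nat.rec h (fun k q => step q (en k)) k
  have p0 : p 0 = h := rfl
  have ps : ∀ k, p (k + 1) = step (p k) (en k) := fun k => rfl
  have hsuf : ∀ k, p k <:+ p (k + 1) := by
    intro k
    rw [ps]
    simp only [step]
    split_ifs
    · exact List.suffix_refl _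
    · exact List.suffix_cons _ _
  have hmono : ∀ k l, k ≤ l → p k <:+ p l := by
    intro k l hkl
    induction l, hkl using Nat.le_induction with
    | base => exact List.suffix_refl _
    | succ l _ ih => exact ih.trans (hsuf l)
  have hcons : ∀ k, Cons τ (p k) := by
    intro k
    induction k with
    | zero => exact hc
    | succ k ih =>
      rw [ps]
      simp only [step]
      split_ifs with h1
      · exact ih
      · push Not at h1
        exact .cons ih h1.2
  have hdomZ : ∀ k, ∀ e ∈ dom (p k), e ∉ Z := by
    intro k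
    induction k with
    | zero => exact hdom
    | succ k ih =>
      rw [ps]
      simp only [step]
      split_ifs with h1
      · exact ih
      · push Not at h1
        intro e he
        simp only [dom, List.map_cons, List.mem_cons] at he
        rcases he with he | he
        · rw [he]
          exact h1.1
        · exact ih e he
  have hcov : ∀ e, e ∉ Z → ∃ k, e ∈ dom (p k) := by
    intro e he
    obtain ⟨k, rfl⟩ := hen e
    refine ⟨k + 1, ?_⟩
    rw [ps]
    simp only [step]
    split_ifs with h1
    · rcases h1 with h1 | h1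
      · exact absurd h1 he
      · exact h1
    · simp [dom]
  have hlen : ∀ N, ∃ k, N ≤ (p k).length := by
    by_contra hcon
    push Not at hcon
    obtain ⟨N, hN⟩ := hcon
    -- the list of queried edges stabilizes
    apply hZ
    have hex : ∃ k, ∀ l, (p l).length ≤ (p k).length := by
      have hb : BddAbove (Set.range fun k => (p k).length) := ⟨N, by
        rintro _ ⟨k, rfl⟩
        exact (hN k).le⟩
      have hm := Nat.sSup_mem (Set.range_nonempty _) hb
      obtain ⟨k, hk⟩ := hm
      refine ⟨k, fun l => ?_⟩
      have := le_csSup hb (Set.mem_range_self l)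
      simp only at hk this ⊢
      rw [hk]
      exact this
    obtain ⟨k, hk⟩ := hex
    have hst : ∀ l, k ≤ l → p l = p k := by
      intro l hl
      exact ((hmono k l hl).eq_of_length_le (hk l)).symm
    refine Set.Finite.subset (List.finite_toSet (dom (p k))) ?_
    intro e he
    obtain ⟨l, hl⟩ := hcov e he
    have hl' : e ∈ dom (p (max k l)) := by
      obtain ⟨t, ht⟩ := hmono l (max k l) (le_max_right _ _)
      rw [← ht, dom, List.map_append, List.mem_append]
      exact Or.inr hl
    rw [hst _ (le_max_left _ _)] at hl'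
    exact hl'
  obtain ⟨f, hf, hh⟩ := limit_run τ p hsuf hlen hcons
  refine ⟨f, hf, ?_, ?_⟩
  · exact hh 0
  · intro e
    constructor
    · intro hw
      by_contra he
      obtain ⟨k, hk⟩ := hcov e he
      rw [mem_dom] at hk
      obtain ⟨c, hk⟩ := hk
      rw [← hh k, mem_hist] at hk
      obtain ⟨m, _, hm⟩ := hk
      exact hw m (by rw [hm])
    · intro he n hn
      obtain ⟨k, hk⟩ := hlen (n + 1)
      have h1 : f n ∈ p k := by
        rw [← hh k]
        exact mem_hist.2 ⟨n, by omega, rfl⟩
      have h2 : (f n).1 ∈ dom (p k) := mem_dom.2 ⟨(f n).2, h1⟩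
      rw [hn] at h2
      exact hdomZ k e h2 he

end Pool.Agent.R612.EG
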