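import Mathlib

/-!
# The rigid graphs `H w` and recognition of labels
-/

namespace Pool.Agent.R612.EG

/-- Background adjacency: two 7-cliques `{0..6}`, `{6..12}` sharing `6`, and a strip from `11` on. -/
def bg (i k : ℕ) : Prop :=
  i ≠ k ∧ ((i ≤ 6 ∧ k ≤ 6) ∨ (6 ≤ i ∧ i ≤ 12 ∧ 6 ≤ k ∧ k ≤ 12) ∨
    (11 ≤ i ∧ 11 ≤ k ∧ i ≤ k + 2 ∧ k ≤ i + 2))

theorem bg_symm {i k : ℕ} (h : bg i k) : bg k i := by
  unfold bg at *
  omega

def leaf (m : ℕ) : ℕ := 20 + 5 * m

theorem leaf_inj {m n : ℕ} (h : leaf m = leaf n) : m = n := by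
  unfold leaf at h
  omega

/-- Star adjacency: `6` is joined to `leaf m` for `w m = true`. -/
def star (w : ℕ → Bool) (i k : ℕ) : Prop :=
  (i = 6 ∧ ∃ m, w m = true ∧ k = leaf m) ∨ (k = 6 ∧ ∃ m, w m = true ∧ i = leaf m)

theorem star_symm {w : ℕ → Bool} {i k : ℕ} (h : star w i k) : star w k i := by
  rcases h with h | h
  · exact Or.inr h
  · exact Or.inl h

theorem star_ne {w : ℕ → Bool} {i k : ℕ} (h : star w i k) : i ≠ k := by
  unfold star leaf at h
  rcases h with ⟨h, m, _, h'⟩ | ⟨h, m, _, h'⟩ <;> omega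

/-- The graphs `H w`. -/
def H (w : ℕ → Bool) : SimpleGraph ℕ where
  Adj i k := bg i k ∨ star w i k
  symm := ⟨by
    intro i k h
    rcases h with h | h
    · exact Or.inl (bg_symm h)
    · exact Or.inr (star_symm h)⟩
  loopless := ⟨by
    intro i h
    rcases h with h | h
    · exact h.1 rfl
    · exact star_ne h rfl⟩

theorem H_adj {w : ℕ → Bool} {i k : ℕ} : (H w).Adj i k ↔ bg i k ∨ star w i k := Iff.rfl

theorem bg_adj {w : ℕ → Bool} {i k : ℕ} (h : bg i k) : (H w).Adj i k := Or.inl h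

theorem star_leaf {w : ℕ → Bool} {m : ℕ} : star w 6 (leaf m) ↔ w m = true := by
  constructor
  · rintro (⟨_, m', h, h'⟩ | ⟨h, _⟩)
    · rw [leaf_inj h']
      exact h
    · unfold leaf at h
      omega
  · intro h
    exact Or.inl ⟨rfl, m, h, rfl⟩

theorem not_bg_leaf {m : ℕ} : ¬ bg 6 (leaf m) := by
  unfold bg leaf
  omega

theorem H_adj_leaf {w : ℕ → Bool} {m : ℕ} : (H w).Adj 6 (leaf m) ↔ w m = true := by
  rw [H_adj, star_leaf]
  constructor
  · rintro (h | h)
    · exact absurd h not_bg_leaf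
    · exact h
  · intro h
    exact Or.inr h

/-- In a triangle of `H w` no edge is a star edge. -/
theorem tri {w : ℕ → Bool} {x y z : ℕ} (h1 : (H w).Adj x y) (h2 : (H w).Adj x z)
    (h3 : (H w).Adj y z) : bg x y := by
  rcases h1 with h1 | h1
  · exact h1
  · exfalso
    rw [H_adj] at h2 h3
    unfold star leaf bg at *
    rcases h1 with ⟨h, m, _, h'⟩ | ⟨h, m, _, h'⟩ <;>
      rcases h2 with h2 | ⟨h2, m2, _, h2'⟩ | ⟨h2, m2, _, h2'⟩ <;>
      rcases h3 with h3 | ⟨h3, m3, _, h3'⟩ | ⟨h3, m3, _, h3'⟩ <;> omega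

/-- A vertex of a 4-clique is at most `12`. -/
theorem four {w : ℕ → Bool} {x a b c : ℕ} (h1 : (H w).Adj x a) (h2 : (H w).Adj x b)
    (h3 : (H w).Adj x c) (h4 : (H w).Adj a b) (h5 : (H w).Adj a c) (h6 : (H w).Adj b c) :
    x ≤ 12 := by
  by_contra hx
  have e1 := tri h1 h2 h4
  have e2 := tri h2 h1 h4.symm
  have e3 := tri h3 h1 h5.symm
  have e4 := tri h4 h5 h6
  have e5 := tri h5 h4 h6.symm
  have e6 := tri h6 h4.symm h5.symm
  unfold bg at *
  omega

/-- Adjacent vertices below `13` are on the same side of `6`. -/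
theorem side {w : ℕ → Bool} {x y : ℕ} (h : (H w).Adj x y) (hx : x < 6) (hy : 6 < y) (hy' : y ≤ 12) :
    False := by
  rcases h with h | h
  · unfold bg at h
    omega
  · unfold star leaf at h
    rcases h with ⟨h, m, _, h'⟩ | ⟨h, m, _, h'⟩ <;> omega

section embed

variable {w : ℕ → Bool} {j : ℕ → ℕ} {a b : ℕ}

/-- Vertices of a 7-clique (with one unknown edge) are mapped below `13`. -/
theorem clique_le (Q : Finset ℕ) (hQ : Q.card = 7) (hinj : Set.InjOn j Q)
    (hadj : ∀ i ∈ Q, ∀ k ∈ Q, i ≠ k → ¬ (i = a ∧ k = b) → ¬ (i = b ∧ k = a) →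
      (H w).Adj (j i) (j k)) : ∀ i ∈ Q, j i ≤ 12 := by
  intro i hi
  have hcard : 2 < (Q \ {i, a, b}).card := by
    have h1 : Q.card - ({i, a, b} : Finset ℕ).card ≤ (Q \ {i, a, b}).card :=
      Finset.le_card_sdiff _ _
    have h2 : ({i, a, b} : Finset ℕ).card ≤ 3 := Finset.card_le_three
    omega
  rw [Finset.two_lt_card] at hcard
  obtain ⟨x, hx, y, hy, z, hz, hxy, hxz, hyz⟩ := hcard
  simp only [Finset.mem_sdiff, Finset.mem_insert, Finset.mem_singleton, not_or] at hx hy hz
  obtain ⟨hx0, hx1, hx2, hx3⟩ := hx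
  obtain ⟨hy0, hy1, hy2, hy3⟩ := hy
  obtain ⟨hz0, hz1, hz2, hz3⟩ := hz
  refine four (w := w) (x := j i) (a := j x) (b := j y) (c := j z) ?_ ?_ ?_ ?_ ?_ ?_
  · exact hadj i hi x hx0 (Ne.symm hx1) (fun h => hx3 h.2) (fun h => hx2 h.2)
  · exact hadj i hi y hy0 (Ne.symm hy1) (fun h => hy3 h.2) (fun h => hy2 h.2)
  · exact hadj i hi z hz0 (Ne.symm hz1) (fun h => hz3 h.2) (fun h => hz2 h.2)
  · exact hadj x hx0 y hy0 hxy (fun h => hx2 h.1) (fun h => hx3 h.1)
  · exact hadj x hx0 z hz0 hxz (fun h => hx2 h.1) (fun h => hx3 h.1)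
  · exact hadj y hy0 z hz0 hyz (fun h => hy2 h.1) (fun h => hy3 h.1)

/-- All vertices of a 7-clique (with one unknown edge) are mapped to the same side. -/
theorem clique_side (Q : Finset ℕ) (hQ : Q.card = 7) (hinj : Set.InjOn j Q)
    (hadj : ∀ i ∈ Q, ∀ k ∈ Q, i ≠ k → ¬ (i = a ∧ k = b) → ¬ (i = b ∧ k = a) →
      (H w).Adj (j i) (j k)) : (∀ i ∈ Q, j i ≤ 6) ∨ (∀ i ∈ Q, 6 ≤ j i ∧ j i ≤ 12) := by
  have hle := clique_le Q hQ hinj hadj
  by_contra hcon
  push Not at hcon
  obtain ⟨⟨p, hp, hp6⟩, ⟨q, hq, hq6⟩⟩ := hcon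
  have hq6' : j q < 6 := by
    by_contra h
    have := hq6 (by omega)
    have := hle q hq
    omega
  have hp12 := hle p hp
  -- `{p, q}` is the unknown pair
  have hpq : p ≠ q := by
    rintro rfl
    omega
  have hcard : 2 < (Q \ {p, a, b}).card := by
    have h1 : Q.card - ({p, a, b} : Finset ℕ).card ≤ (Q \ {p, a, b}).card :=
      Finset.le_card_sdiff _ _
    have h2 : ({p, a, b} : Finset ℕ).card ≤ 3 := Finset.card_le_three
    omega
  have hpair : (q = a ∧ p = b) ∨ (q = b ∧ p = a) := by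
    by_contra h
    push Not at h
    exact side (hadj q hq p hp (Ne.symm hpq) (fun h' => h.1 h'.1 h'.2) (fun h' => h.2 h'.1 h'.2))
      hq6' hp6 hp12
  have key : ∀ r ∈ Q, r ≠ a → r ≠ b → j r = 6 := by
    intro r hr hra hrb
    have hrp : r ≠ p := by
      rcases hpair with h | h
      · rw [h.2]; exact hrb
      · rw [h.2]; exact hra
    have hrq : r ≠ q := by
      rcases hpair with h | h
      · rw [h.1]; exact hra
      · rw [h.1]; exact hrb
    have e1 := hadj r hr p hp hrp (fun h => hra h.1) (fun h => hrb h.1)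
    have e2 := hadj q hq r hr (Ne.symm hrq) (fun h => hrb h.2) (fun h => hra h.2)
    have h12 := hle r hr
    rcases lt_trichotomy (j r) 6 with h | h | h
    · exact (side e1 h hp6 hp12).elim
    · exact h
    · exact (side e2 hq6' h h12).elim
  rw [Finset.two_lt_card] at hcard
  obtain ⟨x, hx, y, hy, z, hz, hxy, hxz, hyz⟩ := hcard
  simp only [Finset.mem_sdiff, Finset.mem_insert, Finset.mem_singleton, not_or] at hx hy hz
  have h1 := key x hx.1 hx.2.2.1 hx.2.2.2
  have h2 := key y hy.1 hy.2.2.1 hy.2.2.2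
  exact hxy (hinj hx.1 hy.1 (h1.trans h2.symm))

/-- Recognition of the centre, with one unknown edge. -/
theorem centre (hinj : Set.InjOn j (Set.Iic 12))
    (hadj : ∀ i k, i ≤ 12 → k ≤ 12 → bg i k → ¬ (i = a ∧ k = b) → ¬ (i = b ∧ k = a) →
      (H w).Adj (j i) (j k)) :
    j 6 = 6 ∧ (∀ i ≤ 12, j i ≤ 12) ∧
      ((∀ i ≤ 6, j i ≤ 6) ∧ (∀ i, 6 ≤ i → i ≤ 12 → 6 ≤ j i) ∨
       (∀ i ≤ 6, 6 ≤ j i) ∧ (∀ i, 6 ≤ i → i ≤ 12 → j i ≤ 6)) := by
  have hQ1 : (Finset.Icc 0 6 : Finset ℕ).card = 7 := by simp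
  have hQ2 : (Finset.Icc 6 12 : Finset ℕ).card = 7 := by simp
  have hinj1 : Set.InjOn j (Finset.Icc 0 6 : Finset ℕ) := by
    refine hinj.mono ?_
    intro x hx
    simp only [Finset.coe_Icc, Set.mem_Icc, Set.mem_Iic] at hx ⊢
    omega
  have hinj2 : Set.InjOn j (Finset.Icc 6 12 : Finset ℕ) := by
    refine hinj.mono ?_
    intro x hx
    simp only [Finset.coe_Icc, Set.mem_Icc, Set.mem_Iic] at hx ⊢
    omega
  have hadj1 : ∀ i ∈ (Finset.Icc 0 6 : Finset ℕ), ∀ k ∈ (Finset.Icc 0 6 : Finset ℕ), i ≠ k →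
      ¬ (i = a ∧ k = b) → ¬ (i = b ∧ k = a) → (H w).Adj (j i) (j k) := by
    intro i hi k hk hik h1 h2
    rw [Finset.mem_Icc] at hi hk
    exact hadj i k (by omega) (by omega) ⟨hik, Or.inl ⟨hi.2, hk.2⟩⟩ h1 h2
  have hadj2 : ∀ i ∈ (Finset.Icc 6 12 : Finset ℕ), ∀ k ∈ (Finset.Icc 6 12 : Finset ℕ), i ≠ k →
      ¬ (i = a ∧ k = b) → ¬ (i = b ∧ k = a) → (H w).Adj (j i) (j k) := by
    intro i hi k hk hik h1 h2
    rw [Finset.mem_Icc] at hi hk
    exact hadj i k (by omega) (by omega) ⟨hik, Or.inr (Or.inl ⟨hi.1, hi.2, hk.1, hk.2⟩)⟩ h1 h2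
  have l1 := clique_le _ hQ1 hinj1 hadj1
  have l2 := clique_le _ hQ2 hinj2 hadj2
  have s1 := clique_side _ hQ1 hinj1 hadj1
  have s2 := clique_side _ hQ2 hinj2 hadj2
  simp only [Finset.mem_Icc] at l1 l2 s1 s2
  have hle : ∀ i ≤ 12, j i ≤ 12 := by
    intro i hi
    by_cases h : i ≤ 6
    · exact l1 i ⟨by omega, h⟩
    · exact l2 i ⟨by omega, hi⟩
  -- not both on the same side
  have hno : ∀ lo hi : ℕ, hi < lo + 12 → (∀ i ≤ 12, lo ≤ j i ∧ j i ≤ hi) → False := by
    intro lo hi hlh h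
    have hsub : (Finset.Icc 0 12 : Finset ℕ).image j ⊆ Finset.Icc lo hi := by
      intro x hx
      rw [Finset.mem_image] at hx
      obtain ⟨i, hi, rfl⟩ := hx
      rw [Finset.mem_Icc] at hi ⊢
      exact h i hi.2
    have hc := Finset.card_le_card hsub
    rw [Finset.card_image_of_injOn (by
      intro x hx y hy hxy
      simp only [Finset.coe_Icc, Set.mem_Icc] at hx hy
      exact hinj hx.2 hy.2 hxy)] at hc
    simp only [Nat.card_Icc] at hc
    omega
  rcases s1 with s1 | s1 <;> rcases s2 with s2 | s2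
  · exfalso
    refine hno 0 6 (by omega) ?_
    intro i hi
    refine ⟨by omega, ?_⟩
    by_cases h : i ≤ 6
    · exact s1 i ⟨by omega, h⟩
    · exact s2 i ⟨by omega, hi⟩
  · refine ⟨?_, hle, Or.inl ⟨fun i hi => s1 i ⟨by omega, hi⟩, fun i h6 h12 => (s2 i ⟨h6, h12⟩).1⟩⟩
    have e1 := s1 6 ⟨by omega, by omega⟩
    have e2 := s2 6 ⟨by omega, by omega⟩
    omega
  · refine ⟨?_, hle, Or.inr ⟨fun i hi => (s1 i ⟨by omega, hi⟩).1, fun i h6 h12 => s2 i ⟨h6, h12⟩⟩⟩
    have e1 := s1 6 ⟨by omega, by omega⟩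
    have e2 := s2 6 ⟨by omega, by omega⟩
    omega
  · exfalso
    refine hno 6 12 (by omega) ?_
    intro i hi
    by_cases h : i ≤ 6
    · exact s1 i ⟨by omega, h⟩
    · exact s2 i ⟨by omega, hi⟩

end embed

/-- Recognition of all labels on the strip, from the positive background edges. -/
theorem strip {w : ℕ → Bool} {j : ℕ → ℕ} {K : ℕ} (hK : 14 ≤ K) (hinj : Set.InjOn j (Set.Iic K))
    (hadj : ∀ i k, i ≤ K → k ≤ K → bg i k → (H w).Adj (j i) (j k)) :
    j 6 = 6 ∧ (∀ i, 11 ≤ i → i ≤ K → j i = i) ∧ (∀ i ≤ 6, j i ≤ 6) ∧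
      (∀ i, 6 ≤ i → i ≤ 12 → 6 ≤ j i ∧ j i ≤ 12) := by
  have hc := centre (w := w) (j := j) (a := 0) (b := 0)
    (hinj.mono (by intro x hx; simp only [Set.mem_Iic] at hx ⊢; omega))
    (fun i k hi hk h _ _ => hadj i k (by omega) (by omega) h)
  obtain ⟨h6, hle, hside⟩ := hc
  -- the values on `[0, 12]` are all of `[0, 12]`
  have hon : ∀ y ≤ 12, ∃ i ≤ 12, j i = y := by
    have hsub : (Finset.Icc 0 12 : Finset ℕ).image j ⊆ Finset.Icc 0 12 := by
      intro x hx
      rw [Finset.mem_image] at hx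
      obtain ⟨i, hi, rfl⟩ := hx
      rw [Finset.mem_Icc] at hi ⊢
      exact ⟨by omega, hle i hi.2⟩
    have heq : (Finset.Icc 0 12 : Finset ℕ).image j = Finset.Icc 0 12 := by
      apply Finset.eq_of_subset_of_card_le hsub
      rw [Finset.card_image_of_injOn]
      intro x hx y hy hxy
      simp only [Finset.coe_Icc, Set.mem_Icc] at hx hy
      exact hinj (show x ∈ Set.Iic K by simp only [Set.mem_Iic]; omega)
        (show y ∈ Set.Iic K by simp only [Set.mem_Iic]; omega) hxy
    intro y hy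
    have : y ∈ (Finset.Icc 0 12 : Finset ℕ).image j := by
      rw [heq, Finset.mem_Icc]
      omega
    rw [Finset.mem_image] at this
    obtain ⟨i, hi, hi'⟩ := this
    rw [Finset.mem_Icc] at hi
    exact ⟨i, hi.2, hi'⟩
  have hI : ∀ x y, x ≤ K → y ≤ K → j x = j y → x = y := fun x y hx hy h => hinj hx hy h
  have h13 : 13 ≤ j 13 := by
    by_contra h
    obtain ⟨i, hi, hi'⟩ := hon (j 13) (by omega)
    have := hI i 13 (by omega) (by omega) hi'
    omega
  have A : ∀ i k, i ≤ K → k ≤ K → i ≠ k → 11 ≤ i → 11 ≤ k → i ≤ k + 2 → k ≤ i + 2 →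
      (H w).Adj (j i) (j k) := fun i k hi hk h1 h2 h3 h4 h5 =>
    hadj i k hi hk ⟨h1, Or.inr (Or.inr ⟨h2, h3, h4, h5⟩)⟩
  -- the triangle 11, 12, 13
  have t1 := A 11 12 (by omega) (by omega) (by omega) (by omega) (by omega) (by omega) (by omega)
  have t2 := A 11 13 (by omega) (by omega) (by omega) (by omega) (by omega) (by omega) (by omega)
  have t3 := A 12 13 (by omega) (by omega) (by omega) (by omega) (by omega) (by omega) (by omega)
  have t4 := A 12 14 (by omega) (by omega) (by omega) (by omega) (by omega) (by omega) (by omega)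
  have t5 := A 13 14 (by omega) (by omega) (by omega) (by omega) (by omega) (by omega) (by omega)
  have b1 := tri t2 t1 t3.symm
  have b2 := tri t3 t1.symm t2.symm
  have b3 := tri t4 t3 t5.symm
  have b4 := tri t5 t3.symm t4.symm
  have n1 : j 11 ≠ j 12 := fun h => by have := hI 11 12 (by omega) (by omega) h; omega
  have n2 : j 14 ≠ j 11 := fun h => by have := hI 14 11 (by omega) (by omega) h; omega
  have n3 : j 14 ≠ j 12 := fun h => by have := hI 14 12 (by omega) (by omega) h; omega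
  have n4 : j 14 ≠ j 13 := fun h => by have := hI 14 13 (by omega) (by omega) h; omega
  have l11 := hle 11 (by omega)
  have l12 := hle 12 (by omega)
  have v13 : j 13 = 13 := by
    unfold bg at b1 b2
    omega
  have v : j 14 = 14 ∧ j 12 = 12 ∧ j 11 = 11 := by
    unfold bg at b1 b2 b3 b4
    omega
  obtain ⟨v14, v12, v11⟩ := v
  have main : ∀ n, 14 + n ≤ K → (∀ i, 11 ≤ i → i ≤ 14 + n → j i = i) := by
    intro n
    induction n with
    | zero =>
      intro _ i hi hi'
      have : i = 11 ∨ i = 12 ∨ i = 13 ∨ i = 14 := by omega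
      rcases this with rfl | rfl | rfl | rfl <;> assumption
    | succ n ih =>
      intro hn i hi hi'
      have ih' := ih (by omega)
      by_cases hlt : i ≤ 14 + n
      · exact ih' i hi hlt
      · have hi0 : i = 14 + n + 1 := by omega
        have g1 := A (14 + n - 1) (14 + n) (by omega) (by omega) (by omega) (by omega) (by omega)
          (by omega) (by omega)
        have g2 := A (14 + n - 1) i (by omega) (by omega) (by omega) (by omega) (by omega)
          (by omega) (by omega)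
        have g3 := A (14 + n) i (by omega) (by omega) (by omega) (by omega) (by omega)
          (by omega) (by omega)
        have c1 := tri g2 g1 g3.symm
        have c2 := tri g3 g1.symm g2.symm
        rw [ih' (14 + n - 1) (by omega) (by omega)] at c1
        rw [ih' (14 + n) (by omega) (by omega)] at c2
        have m1 : j i ≠ 14 + n - 1 := by
          intro h
          rw [← ih' (14 + n - 1) (by omega) (by omega)] at h
          have := hI i (14 + n - 1) (by omega) (by omega) h
          omega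
        have m2 : j i ≠ 14 + n - 2 := by
          intro h
          rw [← ih' (14 + n - 2) (by omega) (by omega)] at h
          have := hI i (14 + n - 2) (by omega) (by omega) h
          omega
        have m3 : j i ≠ 14 + n := by
          intro h
          rw [← ih' (14 + n) (by omega) (by omega)] at h
          have := hI i (14 + n) (by omega) (by omega) h
          omega
        unfold bg at c1 c2
        omega
  refine ⟨h6, ?_, ?_, ?_⟩
  · intro i hi hi'
    exact main (K - 14) (by omega) i hi (by omega)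
  · rcases hside with h | h
    · exact h.1
    · exfalso
      have := h.2 11 (by omega) (by omega)
      omega
  · intro i h1 h2
    rcases hside with h | h
    · exact ⟨h.2 i h1 h2, hle i h2⟩
    · exfalso
      have := h.2 11 (by omega) (by omega)
      omega

/-- Global version: the block function is preserved. -/
def beta (x : ℕ) : ℕ := if x ≤ 5 then 0 else if x ≤ 6 then 6 else if x ≤ 10 then 7 else x

theorem bg_beta {a b : ℕ} (h : a ≠ b) {a' b' : ℕ} (h' : a' ≠ b') (ha : beta a = beta a')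
    (hb : beta b = beta b') : bg a b → bg a' b' := by
  unfold beta at ha hb
  unfold bg
  split_ifs at ha hb <;> omega

theorem glob {w : ℕ → Bool} {j : ℕ → ℕ} (hinj : Function.Injective j)
    (hadj : ∀ i k, bg i k → (H w).Adj (j i) (j k)) : ∀ i, beta (j i) = beta i := by
  intro i
  obtain ⟨h6, h11, hlo, hhi⟩ := strip (w := w) (j := j) (K := max 14 i) (le_max_left _ _)
    (hinj.injOn) (fun i k _ _ h => hadj i k h)
  have hi : i ≤ max 14 i := le_max_right _ _
  by_cases c1 : 11 ≤ i
  · rw [h11 i c1 hi]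
  · have e11 := h11 11 (by omega) (by omega)
    have e12 := h11 12 (by omega) (by omega)
    by_cases c2 : i = 6
    · rw [c2, h6]
    · by_cases c3 : i ≤ 5
      · have := hlo i (by omega)
        have hne : j i ≠ 6 := by
          rw [← h6]
          exact fun h => c2 (hinj h)
        unfold beta
        split_ifs <;> omega
      · have := hhi i (by omega) (by omega)
        have hne : j i ≠ 6 := by
          rw [← h6]
          exact fun h => c2 (hinj h)
        have hne1 : j i ≠ 11 := by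
          intro h
          rw [← e11] at h
          have := hinj h
          omega
        have hne2 : j i ≠ 12 := by
          intro h
          rw [← e12] at h
          have := hinj h
          omega
        unfold beta
        split_ifs <;> omega

theorem glob_leaf {w : ℕ → Bool} {j : ℕ → ℕ} (hinj : Function.Injective j)
    (hadj : ∀ i k, bg i k → (H w).Adj (j i) (j k)) : j 6 = 6 ∧ ∀ m, j (leaf m) = leaf m := by
  have h := glob hinj hadj
  refine ⟨?_, ?_⟩
  · have h1 := h 6
    unfold beta at h1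
    split_ifs at h1 <;> omega
  · intro m
    have h1 := h (leaf m)
    have h2 : 20 ≤ leaf m := by unfold leaf; omega
    unfold beta at h1
    split_ifs at h1 <;> omega

/-- Uniqueness of `w`. -/
theorem w_unique {w w' : ℕ → Bool} (φ : H w ≃g H w') : w = w' := by
  obtain ⟨h6, hl⟩ := glob_leaf (w := w') (j := φ) φ.injective
    (fun i k h => φ.map_adj_iff.2 (bg_adj h))
  funext m
  have h1 : (H w').Adj (φ 6) (φ (leaf m)) ↔ (H w).Adj 6 (leaf m) := φ.map_adj_iff
  rw [h6, hl m, H_adj_leaf, H_adj_leaf] at h1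
  cases h2 : w m <;> cases h3 : w' m <;> simp_all

/-- Toggling a pair which is not a star pair destroys the isomorphism type. -/
theorem toggle_nonstar {w w' : ℕ → Bool} {G : SimpleGraph ℕ} {a b : ℕ} (hab : a ≠ b)
    (hstar : ∀ m, ¬ (a = 6 ∧ b = leaf m) ∧ ¬ (b = 6 ∧ a = leaf m))
    (hG : ∀ x y, ¬ (x = a ∧ y = b) → ¬ (x = b ∧ y = a) → (G.Adj x y ↔ (H w).Adj x y))
    (hGab : G.Adj a b ↔ ¬ (H w).Adj a b) (φ : H w' ≃g G) : False := by
  by_cases hbg : bg a b
  · -- the edge was removed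
    have hn : ¬ G.Adj a b := by
      rw [hGab, not_not]
      exact bg_adj hbg
    have hle : ∀ x y, G.Adj x y → (H w).Adj x y := by
      intro x y hxy
      by_cases c1 : x = a ∧ y = b
      · rw [c1.1, c1.2] at hxy
        exact absurd hxy hn
      · by_cases c2 : x = b ∧ y = a
        · rw [c2.1, c2.2] at hxy
          exact absurd hxy.symm hn
        · exact (hG x y c1 c2).1 hxy
    have hβ := glob (w := w) (j := φ) φ.injective
      (fun i k h => hle _ _ (φ.map_adj_iff.2 (bg_adj h)))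
    have h1 : bg (φ.symm a) (φ.symm b) := by
      refine bg_beta hab (fun h => hab (φ.symm.injective h)) ?_ ?_ hbg
      · rw [← hβ (φ.symm a)]
        simp
      · rw [← hβ (φ.symm b)]
        simp
    have h2 : G.Adj (φ (φ.symm a)) (φ (φ.symm b)) := φ.map_adj_iff.2 (bg_adj h1)
    simp only [RelIso.apply_symm_apply] at h2
    exact hn h2
  · -- the edge was added
    have hnst : ¬ star w a b := by
      rintro (⟨h, m, _, h'⟩ | ⟨h, m, _, h'⟩)
      · exact (hstar m).1 ⟨h, h'⟩
      · exact (hstar m).2 ⟨h, h'⟩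
    have hy : G.Adj a b := by
      rw [hGab, H_adj]
      tauto
    have hle : ∀ x y, (H w).Adj x y → G.Adj x y := by
      intro x y hxy
      by_cases c1 : x = a ∧ y = b
      · rw [c1.1, c1.2]
        exact hy
      · by_cases c2 : x = b ∧ y = a
        · rw [c2.1, c2.2]
          exact hy.symm
        · exact (hG x y c1 c2).2 hxy
    have hadj : ∀ i k, bg i k → (H w').Adj (φ.symm i) (φ.symm k) :=
      fun i k h => φ.symm.map_adj_iff.2 (hle _ _ (bg_adj h))
    have hβ := glob (w := w') (j := φ.symm) φ.symm.injective hadj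
    obtain ⟨h6, hl⟩ := glob_leaf (w := w') (j := φ.symm) φ.symm.injective hadj
    have h1 : (H w').Adj (φ.symm a) (φ.symm b) := φ.symm.map_adj_iff.2 hy
    rcases h1 with h1 | h1
    · exact hbg (bg_beta (fun h => hab (φ.symm.injective h)) hab (hβ a) (hβ b) h1)
    · rcases h1 with ⟨h, m, _, h'⟩ | ⟨h, m, _, h'⟩
      · have e1 : a = 6 := φ.symm.injective (h.trans h6.symm)
        have e2 : b = leaf m := φ.symm.injective (h'.trans (hl m).symm)
        exact (hstar m).1 ⟨e1, e2⟩
      · have e1 : b = 6 := φ.symm.injective (h.trans h6.symm)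
        have e2 : a = leaf m := φ.symm.injective (h'.trans (hl m).symm)
        exact (hstar m).2 ⟨e1, e2⟩

end Pool.Agent.R612.EG
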