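import Pool.Agent.R612.EG.Game

/-!
# Playing against a strategy of Hider: recognition of labels
-/

namespace Pool.Agent.R612.EG

/-- The property determined by a set of codes. -/
def SOf (W : Set (ℕ → Bool)) : Set (SimpleGraph ℕ) := {G | ∃ w ∈ W, Nonempty (H w ≃g G)}

/-- The other element of the pair `{2n, 2n+1}` of `m`. -/
def par (m : ℕ) : ℕ := if m % 2 = 0 then m + 1 else m - 1

theorem par_par (m : ℕ) : par (par m) = m := by
  unfold par
  split_ifs <;> omega

theorem par_ne (m : ℕ) : par m ≠ m := by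
  unfold par
  split_ifs <;> omega

/-- Change one bit. -/
def flip (w : ℕ → Bool) (m : ℕ) : ℕ → Bool := Function.update w m (!w m)

theorem flip_self (w : ℕ → Bool) (m : ℕ) : flip w m m = !w m := by simp [flip]

theorem flip_of_ne (w : ℕ → Bool) {m n : ℕ} (h : n ≠ m) : flip w m n = w n := by
  simp [flip, Function.update_of_ne h]

/-- Invariance under changing a bit whose partner is `false`. -/
def FlipInv (W : Set (ℕ → Bool)) : Prop := ∀ w m, w (par m) = false → w ∈ W → flip w m ∈ W

/-- Only finitely many pairs of the first type have both bits `true`. -/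
def TypeOne (W : Set (ℕ → Bool)) : Prop :=
  ∀ w ∈ W, {n | n % 2 = 0 ∧ w (2 * n) = true ∧ w (2 * n + 1) = true}.Finite

def Near (w w' : ℕ → Bool) : Prop := {m | w m ≠ w' m}.Finite

/-- Seeker has a run against `τ` which wins for all properties under consideration. -/
def AbsWin (τ : List Move → Edge → Bool) : Prop :=
  ∃ f, Follows τ f ∧ ∀ W, FlipInv W → TypeOne W → SeekerWins (SOf W) f

theorem flip_iso {w : ℕ → Bool} {G G2 : SimpleGraph ℕ} (φ : H w ≃g G) (m : ℕ)
    (hG : ∀ x y, ¬ (x = φ 6 ∧ y = φ (leaf m)) → ¬ (x = φ (leaf m) ∧ y = φ 6) →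
      (G2.Adj x y ↔ G.Adj x y))
    (hG2 : G2.Adj (φ 6) (φ (leaf m)) ↔ ¬ G.Adj (φ 6) (φ (leaf m))) :
    Nonempty (H (flip w m) ≃g G2) := by
  have base : G2.Adj (φ 6) (φ (leaf m)) ↔ (H (flip w m)).Adj 6 (leaf m) := by
    rw [hG2, φ.map_adj_iff, H_adj_leaf, H_adj_leaf, flip_self]
    cases w m <;> simp
  refine ⟨⟨φ.toEquiv, ?_⟩⟩
  intro x y
  change G2.Adj (φ x) (φ y) ↔ _
  by_cases c1 : x = 6 ∧ y = leaf m
  · rw [c1.1, c1.2]
    exact base
  · by_cases c2 : x = leaf m ∧ y = 6
    · rw [c2.1, c2.2, G2.adj_comm, (H (flip w m)).adj_comm]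
      exact base
    · rw [hG (φ x) (φ y) (fun h => c1 ⟨φ.injective h.1, φ.injective h.2⟩)
        (fun h => c2 ⟨φ.injective h.1, φ.injective h.2⟩), φ.map_adj_iff, H_adj, H_adj]
      have : star w x y ↔ star (flip w m) x y := by
        unfold star
        constructor
        · rintro (⟨h, k, hk, h'⟩ | ⟨h, k, hk, h'⟩)
          · left
            refine ⟨h, k, ?_, h'⟩
            rw [flip_of_ne]
            · exact hk
            · rintro rfl
              exact c1 ⟨h, h'⟩
          · right
            refine ⟨h, k, ?_, h'⟩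
            rw [flip_of_ne]
            · exact hk
            · rintro rfl
              exact c2 ⟨h', h⟩
        · rintro (⟨h, k, hk, h'⟩ | ⟨h, k, hk, h'⟩)
          · left
            refine ⟨h, k, ?_, h'⟩
            rw [flip_of_ne] at hk
            · exact hk
            · rintro rfl
              exact c1 ⟨h, h'⟩
          · right
            refine ⟨h, k, ?_, h'⟩
            rw [flip_of_ne] at hk
            · exact hk
            · rintro rfl
              exact c2 ⟨h', h⟩
      rw [this]

theorem hist_suffix (f : ℕ → Move) {m n : ℕ} (h : m ≤ n) : hist f m <:+ hist f n := by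
  induction n, h using Nat.le_induction with
  | base => exact List.suffix_refl _
  | succ n _ ih => exact ih.trans (List.suffix_cons _ _)

theorem Fits.suffix {h h' : List Move} {G : SimpleGraph ℕ} (hs : h <:+ h') (hf : Fits h' G) :
    Fits h G := fun x hx => hf x (hs.subset hx)

theorem dom_suffix {h h' : List Move} (hs : h <:+ h') {e : Edge} (he : e ∈ dom h) : e ∈ dom h' := by
  rw [mem_dom] at he ⊢
  obtain ⟨c, hc⟩ := he
  exact ⟨c, hs.subset hc⟩

theorem mem_dom_hist {f : ℕ → Move} {n : ℕ} {e : Edge} :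
    e ∈ dom (hist f n) ↔ ∃ m < n, (f m).1 = e := by
  rw [mem_dom]
  constructor
  · rintro ⟨c, hc⟩
    obtain ⟨m, hm, hm'⟩ := mem_hist.1 hc
    exact ⟨m, hm, by rw [hm']⟩
  · rintro ⟨m, hm, hm'⟩
    exact ⟨(f m).2, mem_hist.2 ⟨m, hm, Prod.ext hm' rfl⟩⟩

/-- A stage at which all non-white edges among finitely many vertices have been queried. -/
theorem exists_stage (f : ℕ → Move) (g : ℕ → ℕ) (K : ℕ) :
    ∃ N, ∀ i k, i ≤ K → k ≤ K → ∀ h : g i ≠ g k, mk (g i) (g k) h ∉ White f →
      ∃ m < N, (f m).1 = mk (g i) (g k) h := by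
  have h1 : ∀ i k, ∃ N, ∀ h : g i ≠ g k, mk (g i) (g k) h ∉ White f →
      ∃ m < N, (f m).1 = mk (g i) (g k) h := by
    intro i k
    by_cases h : g i ≠ g k
    · by_cases hw : mk (g i) (g k) h ∈ White f
      · exact ⟨0, fun h' hw' => absurd hw hw'⟩
      · have hw2 := hw
        simp only [White, Set.mem_ofPred_eq, not_forall, not_not] at hw2
        obtain ⟨m, hm⟩ := hw2
        exact ⟨m + 1, fun _ _ => ⟨m, by omega, hm⟩⟩
    · exact ⟨0, fun h' => absurd h' h⟩
  choose NN hNN using h1
  refine ⟨(Finset.range (K + 1) ×ˢ Finset.range (K + 1)).sup (fun p => NN p.1 p.2), ?_⟩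
  intro i k hi hk h hw
  obtain ⟨m, hm, hm'⟩ := hNN i k h hw
  refine ⟨m, lt_of_lt_of_le hm ?_, hm'⟩
  exact Finset.le_sup (f := fun p : ℕ × ℕ => NN p.1 p.2) (b := (i, k)) (by
    simp only [Finset.mem_product, Finset.mem_range]
    omega)

section strat

variable {τ : List Move → Edge → Bool}

theorem valid_of_run (hA : ¬ AbsWin τ) {f : ℕ → Move} (hf : Follows τ f)
    (hw : (White f).Nonempty) : ∃ G ∈ Final f, ∃ w, Nonempty (H w ≃g G) := by
  by_contra hcon
  push Not at hcon
  apply hA
  refine ⟨f, hf, fun W _ _ => ⟨hw, Or.inr ?_⟩⟩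
  ext G
  simp only [Set.mem_inter_iff, Set.mem_empty_iff_false, iff_false, not_and]
  rintro hG ⟨w, _, hw'⟩
  exact (not_isEmpty_iff.2 hw') (hcon G hG w)

/-- The centre is recognized. -/
def Cen (v : ℕ) (A : Finset ℕ) (h : List Move) : Prop :=
  ∀ (G : SimpleGraph ℕ) (w : ℕ → Bool) (φ : H w ≃g G), Fits h G → φ 6 = v ∧ ∀ i ≤ 12, φ i ∈ A

theorem exists_centre (hA : ¬ AbsWin τ) : ∃ h v A, Cons τ h ∧ Cen v A h := by
  classical
  let e0 : Edge := mk 0 1 (by omega)
  obtain ⟨f, hf, _, hW⟩ := complete_run τ (Cons.nil (τ := τ)) {e0}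
    ((Set.finite_singleton e0).infinite_compl) (by intro e he; simp [dom] at he)
  have hne : (White f).Nonempty := ⟨e0, (hW e0).2 rfl⟩
  obtain ⟨G, hG, w, ⟨φ⟩⟩ := valid_of_run hA hf hne
  obtain ⟨N, hN⟩ := exists_stage f φ 12
  refine ⟨hist f N, φ 6, (Finset.range 13).image φ, (follows_iff.1 hf) N, ?_⟩
  intro G' w' φ' hfit
  have hinj : Function.Injective (fun i => φ'.symm (φ i)) := by
    intro x y hxy
    exact φ.injective (φ'.symm.injective hxy)
  have hc := centre (w := w') (j := fun i => φ'.symm (φ i)) (a := φ.symm 0) (b := φ.symm 1)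
    (hinj.injOn) (by
      intro i k hi hk hbg h1 h2
      have hne' : φ i ≠ φ k := fun h => hbg.1 (φ.injective h)
      have hnw : mk (φ i) (φ k) hne' ∉ White f := by
        rw [hW]
        intro hmem
        have hmem' : mk (φ i) (φ k) hne' = mk 0 1 (by omega) := hmem
        rw [mk_eq] at hmem'
        rcases hmem' with ⟨e1, e2⟩ | ⟨e1, e2⟩
        · apply h1
          constructor
          · rw [← e1]; simp
          · rw [← e2]; simp
        · apply h2
          constructor
          · rw [← e1]; simp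
          · rw [← e2]; simp
      obtain ⟨m, hm, hm'⟩ := hN i k hi hk hne' hnw
      have hGadj : G.Adj (φ i) (φ k) := φ.map_adj_iff.2 (bg_adj hbg)
      have hcol : (f m).2 = true := by
        have := (mem_final hf.1).1 hG m
        rw [hm'] at this
        exact this.1 hGadj
      have h3 := hfit (f m) (mem_hist.2 ⟨m, hm, rfl⟩)
      rw [hm'] at h3
      have h4 : G'.Adj (φ i) (φ k) := h3.2 hcol
      exact φ'.symm.map_adj_iff.2 h4)
  obtain ⟨c1, c2, _⟩ := hc
  refine ⟨?_, ?_⟩
  · have h1 : φ' (φ'.symm (φ 6)) = φ' 6 := congrArg φ' c1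
    rw [RelIso.apply_symm_apply] at h1
    exact h1.symm
  · intro y hy
    have hsub : (Finset.range 13).image (fun i => φ'.symm (φ i)) ⊆ Finset.range 13 := by
      intro x hx
      rw [Finset.mem_image] at hx
      obtain ⟨i, hi, rfl⟩ := hx
      rw [Finset.mem_range] at hi ⊢
      have : φ'.symm (φ i) ≤ 12 := c2 i (by omega)
      omega
    have heq : (Finset.range 13).image (fun i => φ'.symm (φ i)) = Finset.range 13 := by
      apply Finset.eq_of_subset_of_card_le hsub
      rw [Finset.card_image_of_injective _ hinj]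
    have hy' : y ∈ (Finset.range 13).image (fun i => φ'.symm (φ i)) := by
      rw [heq, Finset.mem_range]
      omega
    rw [Finset.mem_image] at hy'
    obtain ⟨i, hi, rfl⟩ := hy'
    rw [Finset.mem_image]
    exact ⟨i, hi, by simp⟩

/-- A bound for the vertices of finitely many edges. -/
theorem exists_bound (s : Set Edge) (hs : s.Finite) :
    ∃ M, ∀ a b (h : a ≠ b), mk a b h ∈ s → a < M ∧ b < M := by
  classical
  refine ⟨hs.toFinset.sup (fun e => e.1.sup) + 1, ?_⟩
  intro a b h hmem
  have h1 : (mk a b h).1.sup ≤ hs.toFinset.sup (fun e => e.1.sup) :=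
    Finset.le_sup (f := fun e : Edge => e.1.sup) (hs.mem_toFinset.2 hmem)
  have h2 : (mk a b h).1.sup = a ⊔ b := rfl
  rw [h2] at h1
  have h3 : a ≤ a ⊔ b := le_sup_left
  have h4 : b ≤ a ⊔ b := le_sup_right
  omega

/-- The labels of a fresh pair of leaves are recognized before the edges to the centre are
queried. -/
theorem leaf_pair (hA : ¬ AbsWin τ) {h : List Move} (hc : Cons τ h) {v : ℕ} {A : Finset ℕ}
    (hcen : Cen v A h) (Zf : Set Edge) (hZf : Zf.Finite) (hZdom : ∀ e ∈ dom h, e ∉ Zf)
    (hZbg : ∀ (G : SimpleGraph ℕ) (w : ℕ → Bool) (φ : H w ≃g G), Fits h G → ∀ i k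
      (hik : φ i ≠ φ k), mk (φ i) (φ k) hik ∈ Zf → ¬ bg i k) (N : ℕ) :
    ∃ h' n u0 u1, ∃ (h0 : v ≠ u0) (h1 : v ≠ u1), h <:+ h' ∧ Cons τ h' ∧ N ≤ n ∧ n % 2 = 0 ∧
      u0 ≠ u1 ∧ mk v u0 h0 ∉ dom h' ∧ mk v u1 h1 ∉ dom h' ∧ mk v u0 h0 ∉ Zf ∧ mk v u1 h1 ∉ Zf ∧
      (∀ e ∈ dom h', e ∉ Zf) ∧
      ∀ (G : SimpleGraph ℕ) (w : ℕ → Bool) (φ : H w ≃g G), Fits h' G →
        φ 6 = v ∧ φ (leaf (2 * n)) = u0 ∧ φ (leaf (2 * n + 1)) = u1 := by
  classical
  -- a bound for all vertices used so far
  obtain ⟨M1, hM1⟩ := exists_bound Zf hZf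
  obtain ⟨M2, hM2⟩ := exists_bound {e | e ∈ dom h} (List.finite_toSet _)
  let M := M1 + M2 + A.sup id + v + 1
  have hMA : ∀ x ∈ A, x < M := by
    intro x hx
    have : x ≤ A.sup id := Finset.le_sup (f := id) hx
    omega
  let Z : Set Edge := {e | ∃ u, ∃ hu : v ≠ u, M ≤ u ∧ e = mk v u hu} ∪ Zf
  have hZinf : Zᶜ.Infinite := by
    have h1 : (Set.range (fun n : ℕ => mk (v + 1) (v + 2 + n) (by omega)) \ Zf).Infinite := by
      apply Set.Infinite.sdiff _ hZf
      apply Set.infinite_range_of_injective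
      intro a b hab
      have := mk_eq.1 hab
      omega
    refine h1.mono ?_
    rintro e ⟨⟨n, rfl⟩, he⟩ hmem
    rcases hmem with ⟨u, hu, _, heq⟩ | hmem
    · have := mk_eq.1 heq
      omega
    · exact he hmem
  have hdomZ : ∀ e ∈ dom h, e ∉ Z := by
    rintro e he (⟨u, hu, hMu, rfl⟩ | hmem)
    · have := hM2 v u hu he
      omega
    · exact hZdom e he hmem
  obtain ⟨f, hf, hfh, hW⟩ := complete_run τ hc Z hZinf hdomZ
  have hwne : (White f).Nonempty := by
    refine ⟨mk v M (by omega), (hW _).2 (Or.inl ⟨M, by omega, le_refl _, rfl⟩)⟩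
  obtain ⟨G, hG, w, ⟨φ⟩⟩ := valid_of_run hA hf hwne
  have hfit : Fits h G := by
    have := final_fits hf.1 hG h.length
    rwa [hfh] at this
  obtain ⟨hv, hφA⟩ := hcen G w φ hfit
  -- choose the pair
  have hfin : {m | φ (leaf m) < M}.Finite := by
    apply Set.Finite.of_finite_image (f := fun m => φ (leaf m))
    · refine (Set.finite_Iio M).subset ?_
      rintro _ ⟨m, hm, rfl⟩
      exact hm
    · intro x _ y _ hxy
      exact leaf_inj (φ.injective hxy)
  obtain ⟨M', hM'⟩ : ∃ M', ∀ m, M' ≤ m → M ≤ φ (leaf m) := by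
    obtain ⟨M', hM'⟩ := hfin.bddAbove
    refine ⟨M' + 1, fun m hm => ?_⟩
    by_contra hlt
    have : m ≤ M' := hM' (show φ (leaf m) < M by omega)
    omega
  let n := 2 * (N + M')
  have hn0 := hM' (2 * n) (by omega)
  have hn1 := hM' (2 * n + 1) (by omega)
  obtain ⟨N', hN'⟩ := exists_stage f φ (leaf (2 * n + 1))
  have hv0 : v ≠ φ (leaf (2 * n)) := by omega
  have hv1 : v ≠ φ (leaf (2 * n + 1)) := by omega
  have hZ0 : mk v (φ (leaf (2 * n))) hv0 ∈ Z := Or.inl ⟨_, _, hn0, rfl⟩
  have hZ1 : mk v (φ (leaf (2 * n + 1))) hv1 ∈ Z := Or.inl ⟨_, _, hn1, rfl⟩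
  have hnd : ∀ e ∈ Z, ∀ k, e ∉ dom (hist f k) := by
    intro e he k hk
    rw [mem_dom_hist] at hk
    obtain ⟨m, _, hm⟩ := hk
    exact (hW e).2 he m hm
  have hsuf : h <:+ hist f (max N' h.length) := by
    have := hist_suffix f (le_max_right N' h.length)
    rwa [hfh] at this
  refine ⟨hist f (max N' h.length), n, φ (leaf (2 * n)), φ (leaf (2 * n + 1)), hv0, hv1,
    hsuf, (follows_iff.1 hf) _, by omega, by omega, ?_, hnd _ hZ0 _, hnd _ hZ1 _, ?_, ?_, ?_, ?_⟩
  · intro heq
    have := leaf_inj (φ.injective heq)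
    omega
  · intro hmem
    have := hM1 _ _ _ hmem
    omega
  · intro hmem
    have := hM1 _ _ _ hmem
    omega
  · intro e he hmem
    exact hnd e (Or.inr hmem) _ he
  · intro G' w' φ' hfit'
    have hcen' := hcen G' w' φ' (hfit'.suffix hsuf)
    have hinj : Function.Injective (fun i => φ'.symm (φ i)) := by
      intro x y hxy
      exact φ.injective (φ'.symm.injective hxy)
    have hs := strip (w := w') (j := fun i => φ'.symm (φ i)) (K := leaf (2 * n + 1))
      (by unfold leaf; omega) (hinj.injOn) (by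
        intro i k hi hk hbg
        have hne' : φ i ≠ φ k := fun h => hbg.1 (φ.injective h)
        have hnw : mk (φ i) (φ k) hne' ∉ White f := by
          rw [hW]
          rintro (⟨u, hu, hMu, heq⟩ | hmem)
          · rw [mk_eq] at heq
            rcases heq with ⟨e1, e2⟩ | ⟨e1, e2⟩
            · have e3 : i = 6 := φ.injective (e1.trans hv.symm)
              have e4 : k ≤ 12 := by
                rw [e3] at hbg
                unfold bg at hbg
                omega
              have := hMA _ (hφA k e4)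
              omega
            · have e3 : k = 6 := φ.injective (e2.trans hv.symm)
              have e4 : i ≤ 12 := by
                rw [e3] at hbg
                unfold bg at hbg
                omega
              have := hMA _ (hφA i e4)
              omega
          · exact hZbg G w φ hfit i k hne' hmem hbg
        obtain ⟨m, hm, hm'⟩ := hN' i k hi hk hne' hnw
        have hGadj : G.Adj (φ i) (φ k) := φ.map_adj_iff.2 (bg_adj hbg)
        have hcol : (f m).2 = true := by
          have := (mem_final hf.1).1 hG m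
          rw [hm'] at this
          exact this.1 hGadj
        have h3 := hfit' (f m) (mem_hist.2 ⟨m, lt_of_lt_of_le hm (le_max_left _ _), rfl⟩)
        rw [hm'] at h3
        have h4 : G'.Adj (φ i) (φ k) := h3.2 hcol
        exact φ'.symm.map_adj_iff.2 h4)
    refine ⟨hcen'.1, ?_, ?_⟩
    · have h1 : φ' (φ'.symm (φ (leaf (2 * n)))) = φ' (leaf (2 * n)) :=
        congrArg φ' (hs.2.1 (leaf (2 * n)) (by unfold leaf; omega) (by unfold leaf; omega))
      rw [RelIso.apply_symm_apply] at h1
      exact h1.symm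
    · have h1 : φ' (φ'.symm (φ (leaf (2 * n + 1)))) = φ' (leaf (2 * n + 1)) :=
        congrArg φ' (hs.2.1 (leaf (2 * n + 1)) (by unfold leaf; omega) (by unfold leaf; omega))
      rw [RelIso.apply_symm_apply] at h1
      exact h1.symm

/-- The first edge of a recognized pair must be coloured green. -/
theorem first_green (hA : ¬ AbsWin τ) {h : List Move} (hc : Cons τ h) {v u u' m : ℕ}
    (hu : v ≠ u) (hu' : v ≠ u') (huu : u ≠ u') (hd : mk v u hu ∉ dom h)
    (hd' : mk v u' hu' ∉ dom h)
    (hlab : ∀ (G : SimpleGraph ℕ) (w : ℕ → Bool) (φ : H w ≃g G), Fits h G →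
      φ 6 = v ∧ φ (leaf m) = u ∧ φ (leaf (par m)) = u') : τ h (mk v u hu) = true := by
  classical
  by_contra hfalse
  have hfalse' : τ h (mk v u hu) = false := by simpa using hfalse
  apply hA
  have hc2 : Cons τ ((mk v u hu, false) :: h) := by
    rw [← hfalse']
    exact .cons hc hd
  have hee : mk v u hu ≠ mk v u' hu' := by
    intro heq
    have := mk_eq.1 heq
    omega
  obtain ⟨f, hf, hfh, hW⟩ := complete_run τ hc2 {mk v u' hu'}
    ((Set.finite_singleton _).infinite_compl) (by
      intro e he hmem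
      have hmem' : e = mk v u' hu' := hmem
      rw [hmem'] at he
      simp only [dom, List.map_cons, List.mem_cons] at he
      rcases he with he | he
      · exact hee he.symm
      · exact hd' he)
  refine ⟨f, hf, fun W hflip _ => ⟨⟨_, (hW _).2 rfl⟩, ?_⟩⟩
  by_cases hne : ∃ G ∈ Final f, G ∈ SOf W
  · left
    obtain ⟨G, hG, w, hwW, ⟨φ⟩⟩ := hne
    have hfit : Fits ((mk v u hu, false) :: h) G := by
      have := final_fits hf.1 hG ((mk v u hu, false) :: h).length
      rwa [hfh] at this
    obtain ⟨l6, lm, lp⟩ := hlab G w φ (hfit.suffix (List.suffix_cons _ _))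
    have hwm : w m = false := by
      have h1 := hfit (mk v u hu, false) (by simp)
      have h2 : ¬ G.Adj v u := by
        intro hadj
        have := h1.1 hadj
        simp at this
      rw [← l6, ← lm, φ.map_adj_iff, H_adj_leaf] at h2
      simpa using h2
    intro G2 hG2
    have hagree : ∀ e : Edge, e ≠ mk v u' hu' → (e.1 ∈ G2.edgeSet ↔ e.1 ∈ G.edgeSet) := by
      intro e he
      have : e ∉ White f := by
        rw [hW]
        exact he
      simp only [White, Set.mem_ofPred_eq, not_forall, not_not] at this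
      obtain ⟨k, hk⟩ := this
      have e1 := (mem_final hf.1).1 hG k
      have e2 := (mem_final hf.1).1 hG2 k
      rw [hk] at e1 e2
      rw [e1, e2]
    have hagree' : ∀ x y, ¬ (x = v ∧ y = u') → ¬ (x = u' ∧ y = v) →
        (G2.Adj x y ↔ G.Adj x y) := by
      intro x y h1 h2
      by_cases hxy : x = y
      · rw [hxy]
        simp
      · have := hagree (mk x y hxy) (by
          intro heq
          rcases mk_eq.1 heq with h | h
          · exact h1 h
          · exact h2 h)
        exact this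
    by_cases hlast : G2.Adj v u' ↔ G.Adj v u'
    · have : G2 = G := by
        ext x y
        by_cases c1 : x = v ∧ y = u'
        · rw [c1.1, c1.2]
          exact hlast
        · by_cases c2 : x = u' ∧ y = v
          · rw [c2.1, c2.2, G2.adj_comm, G.adj_comm]
            exact hlast
          · exact hagree' x y c1 c2
      rw [this]
      exact ⟨w, hwW, ⟨φ⟩⟩
    · refine ⟨flip w (par m), ?_, ?_⟩
      · apply hflip
        · rw [par_par]
          exact hwm
        · exact hwW
      · apply flip_iso φ (par m)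
        · intro x y h1 h2
          rw [l6, lp] at h1 h2
          exact hagree' x y h1 h2
        · rw [l6, lp]
          tauto
  · right
    push Not at hne
    ext G
    simp only [Set.mem_inter_iff, Set.mem_empty_iff_false, iff_false, not_and]
    exact hne G

end strat

end Pool.Agent.R612.EG
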