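import Pool.Agent.R612.EG.HiderA

/-!
# Playing against a strategy of Hider: continuum many essentially different runs
-/

namespace Pool.Agent.R612.EG

theorem Cen.suffix {v : ℕ} {A : Finset ℕ} {h h' : List Move} (hs : h <:+ h') (hc : Cen v A h) :
    Cen v A h' := fun G w φ hf => hc G w φ (hf.suffix hs)

section strat

variable {τ : List Move → Edge → Bool}

theorem exists_base (hA : ¬ AbsWin τ) : ∃ (h : List Move) (v : ℕ) (A : Finset ℕ) (u m0 : ℕ)
    (hu : v ≠ u), Cons τ h ∧ Cen v A h ∧ mk v u hu ∉ dom h ∧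
      ∀ (G : SimpleGraph ℕ) (w : ℕ → Bool) (φ : H w ≃g G), Fits h G →
        φ 6 = v ∧ φ (leaf m0) = u := by
  obtain ⟨h, v, A, hc, hcen⟩ := exists_centre hA
  obtain ⟨h', n, u0, u1, h0, h1, hs, hc', _, _, _, _, hd1, _, _, _, hlab⟩ :=
    leaf_pair hA hc hcen ∅ Set.finite_empty (fun e _ he => he) (fun G w φ _ i k hik hm => by
      exact absurd hm (Set.notMem_empty _)) 0
  exact ⟨h', v, A, u1, 2 * n + 1, h1, hc', hcen.suffix hs, hd1, fun G w φ hf =>
    ⟨(hlab G w φ hf).1, (hlab G w φ hf).2.2⟩⟩

theorem pair_query (hA : ¬ AbsWin τ) {h : List Move} (hc : Cons τ h) {v x y m : ℕ}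
    (hx : v ≠ x) (hy : v ≠ y) (hxy : x ≠ y) (hdx : mk v x hx ∉ dom h)
    (hdy : mk v y hy ∉ dom h)
    (hlab : ∀ (G : SimpleGraph ℕ) (w : ℕ → Bool) (φ : H w ≃g G), Fits h G →
      φ 6 = v ∧ φ (leaf m) = x ∧ φ (leaf (par m)) = y) {ef : Edge} (hef : ef ∉ dom h)
    (hefx : mk v x hx ≠ ef) (hefy : mk v y hy ≠ ef) :
    ∃ h', h <:+ h' ∧ h.length < h'.length ∧ Cons τ h' ∧ ef ∉ dom h' ∧
      ∃ c : Bool, ∀ (G : SimpleGraph ℕ) (w : ℕ → Bool) (φ : H w ≃g G), Fits h' G →
        w m = true ∧ w (par m) = c := by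
  have hfirst := first_green hA hc hx hy hxy hdx hdy hlab
  have hc1 : Cons τ ((mk v x hx, true) :: h) := by
    rw [← hfirst]
    exact .cons hc hdx
  have hne : mk v y hy ≠ mk v x hx := by
    intro heq
    have := mk_eq.1 heq
    omega
  have hdy1 : mk v y hy ∉ dom ((mk v x hx, true) :: h) := by
    simp only [dom, List.map_cons, List.mem_cons, not_or]
    exact ⟨hne, hdy⟩
  refine ⟨_, ?_, ?_, Cons.cons hc1 hdy1, ?_, τ ((mk v x hx, true) :: h) (mk v y hy), ?_⟩
  · exact (List.suffix_cons _ _).trans (List.suffix_cons _ _)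
  · simp
  · simp only [dom, List.map_cons, List.mem_cons, not_or]
    exact ⟨Ne.symm hefy, Ne.symm hefx, hef⟩
  · intro G w φ hfit
    obtain ⟨l6, lm, lp⟩ := hlab G w φ
      (hfit.suffix ((List.suffix_cons _ _).trans (List.suffix_cons _ _)))
    have e1 := hfit (mk v x hx, true) (by simp)
    have e2 := hfit (mk v y hy, τ ((mk v x hx, true) :: h) (mk v y hy)) (by simp)
    constructor
    · have : G.Adj v x := e1.2 rfl
      rw [← l6, ← lm, φ.map_adj_iff, H_adj_leaf] at this
      exact this
    · have h3 : G.Adj v y ↔ τ ((mk v x hx, true) :: h) (mk v y hy) = true := e2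
      have h4 : G.Adj v y ↔ w (par m) = true := by
        rw [← l6, ← lp, φ.map_adj_iff, H_adj_leaf]
      rw [h4] at h3
      exact Bool.eq_iff_iff.2 h3

theorem step_exists (hA : ¬ AbsWin τ) {hb : List Move} {v : ℕ} {A : Finset ℕ} {u m0 : ℕ}
    {hu : v ≠ u} (hcen : Cen v A hb)
    (hlab : ∀ (G : SimpleGraph ℕ) (w : ℕ → Bool) (φ : H w ≃g G), Fits hb G →
        φ 6 = v ∧ φ (leaf m0) = u) (e : Edge) (N : ℕ) {h : List Move} (hs : hb <:+ h)
    (hc : Cons τ h) (hef : mk v u hu ∉ dom h) :
    ∃ n, N ≤ n ∧ n % 2 = 0 ∧ ∀ b : Bool, ∃ h', h <:+ h' ∧ h.length < h'.length ∧ Cons τ h' ∧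
      mk v u hu ∉ dom h' ∧ (e = mk v u hu ∨ e ∈ dom h') ∧
      ∃ c : Bool, ∀ (G : SimpleGraph ℕ) (w : ℕ → Bool) (φ : H w ≃g G), Fits h' G →
        w (2 * n + b.toNat) = true ∧ w (2 * n + (!b).toNat) = c := by
  classical
  -- query `e`
  obtain ⟨h1, hs1, hc1, hef1, he1⟩ : ∃ h1, h <:+ h1 ∧ Cons τ h1 ∧ mk v u hu ∉ dom h1 ∧
      (e = mk v u hu ∨ e ∈ dom h1) := by
    by_cases hcase : e = mk v u hu ∨ e ∈ dom h
    · exact ⟨h, List.suffix_refl _, hc, hef, hcase⟩
    · push Not at hcase
      refine ⟨_, List.suffix_cons _ _, Cons.cons hc hcase.2, ?_, Or.inr ?_⟩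
      · simp only [dom, List.map_cons, List.mem_cons, not_or]
        exact ⟨Ne.symm hcase.1, hef⟩
      · simp [dom]
  obtain ⟨h2, n, u0, u1, hv0, hv1, hs2, hc2, hN, heven, hne, hd0, hd1, hz0, hz1, hdz, hlab2⟩ :=
    leaf_pair hA hc1 (hcen.suffix (hs.trans hs1)) {mk v u hu} (Set.finite_singleton _)
      (by
        intro e' he' hmem
        have : e' = mk v u hu := hmem
        rw [this] at he'
        exact hef1 he')
      (by
        intro G w φ hfit i k hik hmem hbg
        have hmem' : mk (φ i) (φ k) hik = mk v u hu := hmem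
        obtain ⟨l6, lm⟩ := hlab G w φ (hfit.suffix (hs.trans hs1))
        rw [mk_eq] at hmem'
        rcases hmem' with ⟨e1, e2⟩ | ⟨e1, e2⟩
        · have a1 : i = 6 := φ.injective (e1.trans l6.symm)
          have a2 : k = leaf m0 := φ.injective (e2.trans lm.symm)
          rw [a1, a2] at hbg
          exact not_bg_leaf hbg
        · have a1 : i = leaf m0 := φ.injective (e1.trans lm.symm)
          have a2 : k = 6 := φ.injective (e2.trans l6.symm)
          rw [a1, a2] at hbg
          exact not_bg_leaf (bg_symm hbg)) N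
  have hef2 : mk v u hu ∉ dom h2 := fun hmem => hdz _ hmem rfl
  have p0 : par (2 * n) = 2 * n + 1 := by unfold par; split_ifs <;> omega
  have p1 : par (2 * n + 1) = 2 * n := by unfold par; split_ifs <;> omega
  refine ⟨n, hN, heven, ?_⟩
  intro b
  cases b with
  | false =>
    obtain ⟨h', g1, g2, g3, g4, c, g5⟩ := pair_query hA hc2 (m := 2 * n) hv0 hv1 hne hd0 hd1
      (by
        intro G w φ hfit
        rw [p0]
        exact hlab2 G w φ hfit) hef2 hz0 hz1
    refine ⟨h', (hs1.trans hs2).trans g1, ?_, g3, g4, ?_, c, ?_⟩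
    · exact lt_of_le_of_lt (hs1.trans hs2).length_le g2
    · rcases he1 with he1 | he1
      · exact Or.inl he1
      · exact Or.inr (dom_suffix (hs2.trans g1) he1)
    · intro G w φ hfit
      have := g5 G w φ hfit
      rw [p0] at this
      simpa using this
  | true =>
    obtain ⟨h', g1, g2, g3, g4, c, g5⟩ := pair_query hA hc2 (m := 2 * n + 1) hv1 hv0 hne.symm
      hd1 hd0
      (by
        intro G w φ hfit
        rw [p1]
        have := hlab2 G w φ hfit
        exact ⟨this.1, this.2.2, this.2.1⟩) hef2 hz1 hz0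
    refine ⟨h', (hs1.trans hs2).trans g1, ?_, g3, g4, ?_, c, ?_⟩
    · exact lt_of_le_of_lt (hs1.trans hs2).length_le g2
    · rcases he1 with he1 | he1
      · exact Or.inl he1
      · exact Or.inr (dom_suffix (hs2.trans g1) he1)
    · intro G w φ hfit
      have := g5 G w φ hfit
      rw [p1] at this
      simpa using this

/-- Either Seeker has a run against `τ` winning for all properties under consideration, or there
is a family of runs, one for each real, whose codes are pairwise essentially different. -/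
theorem hider_case (τ : List Move → Edge → Bool) : AbsWin τ ∨
    ∃ F : (ℕ → Bool) → (ℕ → Bool), (∀ w, {z | Near (F z) w}.Countable) ∧
      ∀ z, ∃ f, Follows τ f ∧ ∀ W : Set (ℕ → Bool), (∀ w ∈ W, ¬ Near (F z) w) →
        SeekerWins (SOf W) f := by
  classical
  by_cases hA : AbsWin τ
  · exact Or.inl hA
  right
  obtain ⟨hb, v, A, u, m0, hu, hcb, hcen, hefb, hlab⟩ := exists_base hA
  obtain ⟨en, hen⟩ := exists_enum
  let St : Type := {h : List Move // hb <:+ h ∧ Cons τ h ∧ mk v u hu ∉ dom h}
  have hstep : ∀ (s : St) (k : ℕ), ∃ n, k ≤ n ∧ n % 2 = 0 ∧ ∀ b : Bool, ∃ s' : St,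
      s.1 <:+ s'.1 ∧ s.1.length < s'.1.length ∧ (en k = mk v u hu ∨ en k ∈ dom s'.1) ∧
      ∃ c : Bool, ∀ (G : SimpleGraph ℕ) (w : ℕ → Bool) (φ : H w ≃g G), Fits s'.1 G →
        w (2 * n + b.toNat) = true ∧ w (2 * n + (!b).toNat) = c := by
    intro s k
    obtain ⟨n, h1, h2, h3⟩ := step_exists hA hcen hlab (en k) k s.2.1 s.2.2.1 s.2.2.2
    refine ⟨n, h1, h2, fun b => ?_⟩
    obtain ⟨h', g1, g2, g3, g4, g5, c, g6⟩ := h3 b
    exact ⟨⟨h', s.2.1.trans g1, g3, g4⟩, g1, g2, g5, c, g6⟩
  choose idx hidx heven nxt hsuf hlt hcov col hcol using hstep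
  let st : (ℕ → Bool) → ℕ → St := fun z k =>
    Nat.rec ⟨hb, List.suffix_refl _, hcb, hefb⟩ (fun k s => nxt s k (z k)) k
  have sts : ∀ z k, st z (k + 1) = nxt (st z k) k (z k) := fun z k => rfl
  have stdep : ∀ z z' k, (∀ i < k, z i = z' i) → st z k = st z' k := by
    intro z z' k
    induction k with
    | zero => intro _; rfl
    | succ k ih =>
      intro h
      rw [sts, sts, ih (fun i hi => h i (by omega)), h k (by omega)]
  have hlen : ∀ z k, k ≤ (st z k).1.length := by
    intro z k
    induction k with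
    | zero => omega
    | succ k ih =>
      have := hlt (st z k) k (z k)
      rw [sts]
      omega
  -- the run
  have hrun : ∀ z, ∃ f, Follows τ f ∧ (∀ k, hist f (st z k).1.length = (st z k).1) := by
    intro z
    exact limit_run τ (fun k => (st z k).1) (fun k => hsuf _ _ _)
      (fun N => ⟨N, hlen z N⟩) (fun k => (st z k).2.2.1)
  have hW : ∀ z f, (∀ k, hist f (st z k).1.length = (st z k).1) → ∀ e, e ∈ White f ↔
      e = mk v u hu := by
    intro z f hf e
    constructor
    · intro he
      obtain ⟨k, rfl⟩ := hen e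
      rcases hcov (st z k) k (z k) with h | h
      · exact h
      · exfalso
        rw [← sts, ← hf (k + 1), mem_dom_hist] at h
        obtain ⟨m, _, hm⟩ := h
        exact he m hm
    · rintro rfl m hm
      apply (st z (m + 1)).2.2.2
      rw [← hf (m + 1), mem_dom_hist]
      exact ⟨m, by have := hlen z (m + 1); omega, hm⟩
  -- the codes
  have hcode : ∀ z, ∃ w, (∃ f, Follows τ f ∧ ∀ W : Set (ℕ → Bool), (∀ w' ∈ W, ¬ Near w w') →
      SeekerWins (SOf W) f) ∧ ∃ k0, ∀ k, k0 ≤ k → w (2 * idx (st z k) k + 1) = z k := by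
    intro z
    obtain ⟨f, hf, hfh⟩ := hrun z
    have hWf := hW z f hfh
    have hne : (White f).Nonempty := ⟨_, (hWf _).2 rfl⟩
    obtain ⟨G, hG, w, ⟨φ⟩⟩ := valid_of_run hA hf hne
    have hfits : ∀ G' ∈ Final f, ∀ k, Fits (st z k).1 G' := by
      intro G' hG' k
      have := final_fits hf.1 hG' (st z k).1.length
      rwa [hfh] at this
    refine ⟨w, ⟨f, hf, ?_⟩, ?_⟩
    · intro W hWW
      refine ⟨hne, Or.inr ?_⟩
      ext G2
      simp only [Set.mem_inter_iff, Set.mem_empty_iff_false, iff_false, not_and]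
      rintro hG2 ⟨w2, hw2, ⟨φ2⟩⟩
      have hagree' : ∀ x y, ¬ (x = v ∧ y = u) → ¬ (x = u ∧ y = v) →
          (G2.Adj x y ↔ G.Adj x y) := by
        intro x y h1 h2
        by_cases hxy : x = y
        · rw [hxy]
          simp
        · have hnw : mk x y hxy ∉ White f := by
            rw [hWf]
            intro heq
            rcases mk_eq.1 heq with h | h
            · exact h1 h
            · exact h2 h
          simp only [White, Set.mem_ofPred_eq, not_forall, not_not] at hnw
          obtain ⟨k, hk⟩ := hnw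
          have e1 := (mem_final hf.1).1 hG k
          have e2 := (mem_final hf.1).1 hG2 k
          rw [hk, mk_mem] at e1 e2
          rw [e1, e2]
      by_cases hlast : G2.Adj v u ↔ G.Adj v u
      · have hGG : G2 = G := by
          ext x y
          by_cases c1 : x = v ∧ y = u
          · rw [c1.1, c1.2]
            exact hlast
          · by_cases c2 : x = u ∧ y = v
            · rw [c2.1, c2.2, G2.adj_comm, G.adj_comm]
              exact hlast
            · exact hagree' x y c1 c2
        subst hGG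
        have : w = w2 := w_unique (φ.trans φ2.symm)
        apply hWW w2 hw2
        rw [this]
        simp [Near]
      · obtain ⟨l6, lm⟩ := hlab G w φ (by
          have := hfits G hG 0
          exact this)
        obtain ⟨ψ⟩ : Nonempty (H (flip w m0) ≃g G2) := by
          apply flip_iso φ m0
          · intro x y h1 h2
            rw [l6, lm] at h1 h2
            exact hagree' x y h1 h2
          · rw [l6, lm]
            tauto
        have : flip w m0 = w2 := w_unique (ψ.trans φ2.symm)
        apply hWW w2 hw2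
        rw [← this]
        refine (Set.finite_singleton m0).subset ?_
        intro m hm
        by_contra hmm
        exact hm (flip_of_ne w hmm).symm
    · -- eventually the second colour is red
      have hfin : {k | col (st z k) k (z k) = true}.Finite := by
        by_contra hinf
        apply hA
        refine ⟨f, hf, fun W _ hty => ⟨hne, Or.inr ?_⟩⟩
        ext G2
        simp only [Set.mem_inter_iff, Set.mem_empty_iff_false, iff_false, not_and]
        rintro hG2 ⟨w2, hw2, ⟨φ2⟩⟩
        obtain ⟨B, hB⟩ := (hty w2 hw2).bddAbove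
        obtain ⟨k, hk, hBk⟩ := Set.Infinite.exists_gt hinf B
        have h1 := hcol (st z k) k (z k) G2 w2 φ2 (by rw [← sts]; exact hfits G2 hG2 (k + 1))
        have hk' : col (st z k) k (z k) = true := hk
        rw [hk'] at h1
        have h2 : idx (st z k) k ∈ {n | n % 2 = 0 ∧ w2 (2 * n) = true ∧ w2 (2 * n + 1) = true} := by
          refine ⟨heven _ _, ?_⟩
          cases h3 : z k <;> rw [h3] at h1 <;> simp at h1 <;> tauto
        have h3 := hB h2
        have h4 := hidx (st z k) k
        omega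
      obtain ⟨B, hB⟩ := hfin.bddAbove
      refine ⟨B + 1, fun k hk => ?_⟩
      have hck : col (st z k) k (z k) = false := by
        by_contra hcc
        have : k ≤ B := hB (by simpa using hcc)
        omega
      have h1 := hcol (st z k) k (z k) G w φ (by rw [← sts]; exact hfits G hG (k + 1))
      rw [hck] at h1
      cases h3 : z k <;> rw [h3] at h1 <;> simp at h1 <;> tauto
  choose F hF k0 hk0 using hcode
  refine ⟨F, ?_, hF⟩
  intro w
  -- countability of the fibres
  have hk1 : ∀ z, Near (F z) w → ∃ k1, ∀ k, k1 ≤ k → w (2 * idx (st z k) k + 1) = z k := by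
    intro z hz
    obtain ⟨B, hB⟩ := Set.Finite.bddAbove hz
    refine ⟨max (k0 z) (B + 1), fun k hk => ?_⟩
    rw [← hk0 z k (by omega)]
    by_contra hcon
    have h1 : 2 * idx (st z k) k + 1 ≤ B := hB (fun h => hcon h.symm)
    have h2 := hidx (st z k) k
    omega
  have hcover : {z | Near (F z) w} ⊆ ⋃ k1 : ℕ, {z | ∀ k, k1 ≤ k →
      w (2 * idx (st z k) k + 1) = z k} := by
    intro z hz
    obtain ⟨k1, h⟩ := hk1 z hz
    exact Set.mem_iUnion.2 ⟨k1, h⟩
  refine Set.Countable.mono hcover (Set.countable_iUnion fun k1 => ?_)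
  have hinj : Set.InjOn (fun (z : ℕ → Bool) => (fun i : Fin k1 => z i))
      {z | ∀ k, k1 ≤ k → w (2 * idx (st z k) k + 1) = z k} := by
    intro z hz z' hz' heq
    funext k
    induction k using Nat.strong_induction_on with
    | _ k ih =>
      by_cases hk : k < k1
      · exact congrFun heq ⟨k, hk⟩
      · rw [← hz k (by omega), ← hz' k (by omega), stdep z z' k ih]
  exact Set.MapsTo.countable_of_injOn (t := Set.univ) (fun _ _ => Set.mem_univ _) hinj
    (Set.to_countable _)

end strat

end Pool.Agent.R612.EG
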