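import Pool.Agent.R612.EG.HiderA

/-!
# Playing against a strategy of Seeker
-/

namespace Pool.Agent.R612.EG

/-- The star edges. -/
def starE (m : ℕ) : Edge := mk 6 (leaf m) (by unfold leaf; omega)

theorem starE_inj {m n : ℕ} (h : starE m = starE n) : m = n := by
  rcases mk_eq.1 h with ⟨_, h⟩ | ⟨h, _⟩
  · exact leaf_inj h
  · unfold leaf at h
    omega

/-- The colour given to the second edge of a pair. -/
def cl (y : ℕ → Bool) (m : ℕ) : Bool := if (m / 2) % 2 = 0 then false else y (m / 2 / 2)

theorem par_div (m : ℕ) : par m / 2 = m / 2 := by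
  unfold par
  split_ifs <;> omega

theorem cl_par (y : ℕ → Bool) (m : ℕ) : cl y (par m) = cl y m := by
  unfold cl
  rw [par_div]

open Classical in
/-- The answers of Hider. -/
noncomputable def ans (y : ℕ → Bool) (h : List Move) (e : Edge) : Bool :=
  if hm : ∃ m, e = starE m then
    (if starE (par hm.choose) ∈ dom h then cl y hm.choose else true)
  else decide (e.1 ∈ (H (fun _ => false)).edgeSet)

open Classical in
theorem ans_star (y : ℕ → Bool) (h : List Move) (m : ℕ) :
    ans y h (starE m) = if starE (par m) ∈ dom h then cl y m else true := by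
  have hm : ∃ m', starE m = starE m' := ⟨m, rfl⟩
  have heq : hm.choose = m := (starE_inj hm.choose_spec).symm
  unfold ans
  rw [dif_pos hm, heq]

theorem star_starE {w : ℕ → Bool} {a b : ℕ} (h : star w a b) (hab : a ≠ b) :
    ∃ m, mk a b hab = starE m := by
  rcases h with ⟨h, m, _, h'⟩ | ⟨h, m, _, h'⟩
  · exact ⟨m, mk_eq.2 (Or.inl ⟨h, h'⟩)⟩
  · exact ⟨m, mk_eq.2 (Or.inr ⟨h', h⟩)⟩

theorem mem_nonstar {e : Edge} (he : ∀ m, e ≠ starE m) (w w' : ℕ → Bool) :
    e.1 ∈ (H w).edgeSet ↔ e.1 ∈ (H w').edgeSet := by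
  obtain ⟨a, b, hab, rfl⟩ := exists_mk e
  rw [mk_mem, mk_mem, H_adj, H_adj]
  have h1 : ∀ w, ¬ star w a b := by
    intro w hs
    obtain ⟨m, hm⟩ := star_starE hs hab
    exact he m hm
  have := h1 w
  have := h1 w'
  tauto

theorem ans_nonstar (y : ℕ → Bool) (h : List Move) {e : Edge} (he : ∀ m, e ≠ starE m)
    (w : ℕ → Bool) : e.1 ∈ (H w).edgeSet ↔ ans y h e = true := by
  classical
  unfold ans
  rw [dif_neg (by push Not; exact he), decide_eq_true_eq]
  exact mem_nonstar he _ _

/-- The histories of the run of `σ` against the answers for `y`. -/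
noncomputable def runH (σ : List Move → Edge) (y : ℕ → Bool) : ℕ → List Move
  | 0 => []
  | n + 1 => (σ (runH σ y n), ans y (runH σ y n) (σ (runH σ y n))) :: runH σ y n

/-- The run of `σ` against the answers for `y`. -/
noncomputable def run (σ : List Move → Edge) (y : ℕ → Bool) (n : ℕ) : Move :=
  (σ (runH σ y n), ans y (runH σ y n) (σ (runH σ y n)))

theorem hist_run (σ : List Move → Edge) (y : ℕ → Bool) (n : ℕ) :
    hist (run σ y) n = runH σ y n := by
  induction n with
  | zero => rfl
  | succ n ih => rw [hist, ih]; rfl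

theorem run_fst (σ : List Move → Edge) (y : ℕ → Bool) (n : ℕ) :
    (run σ y n).1 = σ (hist (run σ y) n) := by rw [hist_run]; rfl

theorem run_snd (σ : List Move → Edge) (y : ℕ → Bool) (n : ℕ) :
    (run σ y n).2 = ans y (hist (run σ y) n) (run σ y n).1 := by rw [hist_run]; rfl

/-- The edge `m` is the first one of its pair to be coloured. -/
def Fst (f : ℕ → Move) (m : ℕ) : Prop :=
  (∃ n, (f n).1 = starE m ∧ starE (par m) ∉ dom (hist f n)) ∨
    (starE m ∈ White f ∧ starE (par m) ∈ White f ∧ m % 2 = 0)

theorem fst_not {f : ℕ → Move} {m : ℕ} (h1 : Fst f m) (h2 : Fst f (par m)) : False := by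
  unfold Fst at h1 h2
  rw [par_par] at h2
  rcases h1 with ⟨n, hn, hn'⟩ | ⟨hw, hw', h0⟩
  · rcases h2 with ⟨k, hk, hk'⟩ | ⟨hv, hv', _⟩
    · rw [mem_dom_hist] at hn' hk'
      push Not at hn' hk'
      rcases lt_trichotomy n k with h | h | h
      · exact hk' n h hn
      · rw [h, hk] at hn
        exact par_ne m (starE_inj hn)
      · exact hn' k h hk
    · exact hv' n hn
  · rcases h2 with ⟨k, hk, hk'⟩ | ⟨hv, hv', h3⟩
    · exact hw' k hk
    · unfold par at h3
      split_ifs at h3
      omega

theorem fst_or {f : ℕ → Move} {m : ℕ} : Fst f m ∨ Fst f (par m) := by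
  unfold Fst
  rw [par_par]
  by_cases h1 : starE m ∈ White f
  · by_cases h2 : starE (par m) ∈ White f
    · by_cases h3 : m % 2 = 0
      · exact Or.inl (Or.inr ⟨h1, h2, h3⟩)
      · refine Or.inr (Or.inr ⟨h2, h1, ?_⟩)
        unfold par
        rw [if_neg h3]
        omega
    · simp only [White, Set.mem_ofPred_eq, not_forall, not_not] at h2
      obtain ⟨n, hn⟩ := h2
      refine Or.inr (Or.inl ⟨n, hn, ?_⟩)
      rw [mem_dom_hist]
      rintro ⟨k, _, hk⟩
      exact h1 k hk
  · simp only [White, Set.mem_ofPred_eq, not_forall, not_not] at h1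
    obtain ⟨n, hn⟩ := h1
    by_cases h4 : starE (par m) ∈ dom (hist f n)
    · rw [mem_dom_hist] at h4
      -- the first time one of the two is queried
      classical
      have hex : ∃ k, (f k).1 = starE (par m) := by
        obtain ⟨k, _, hk⟩ := h4
        exact ⟨k, hk⟩
      by_cases h5 : starE m ∈ dom (hist f (Nat.find hex))
      · rw [mem_dom_hist] at h5
        obtain ⟨l, hl, hl'⟩ := h5
        refine Or.inl (Or.inl ⟨l, hl', ?_⟩)
        rw [mem_dom_hist]
        rintro ⟨k, hk, hk'⟩
        exact Nat.find_min hex (lt_trans hk hl) hk'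
      · exact Or.inr (Or.inl ⟨_, Nat.find_spec hex, h5⟩)
    · exact Or.inl (Or.inl ⟨n, hn, h4⟩)

theorem fst_iff {f : ℕ → Move} {m : ℕ} : Fst f (par m) ↔ ¬ Fst f m := by
  constructor
  · exact fun h1 h2 => fst_not h2 h1
  · intro h
    rcases fst_or (f := f) (m := m) with h1 | h1
    · exact absurd h1 h
    · exact h1

open Classical in
/-- The code of the graph built in the run. -/
noncomputable def code (f : ℕ → Move) (y : ℕ → Bool) (m : ℕ) : Bool :=
  if Fst f m then true else cl y m

theorem code_pair (f : ℕ → Move) (y : ℕ → Bool) (n : ℕ) :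
    (code f y (2 * n) && code f y (2 * n + 1)) = cl y (2 * n) := by
  classical
  have p0 : par (2 * n) = 2 * n + 1 := by unfold par; split_ifs <;> omega
  have h1 := fst_iff (f := f) (m := 2 * n)
  have h2 := cl_par y (2 * n)
  rw [p0] at h1 h2
  unfold code
  by_cases h : Fst f (2 * n)
  · rw [if_pos h, if_neg (by rw [h1]; exact not_not.2 h), h2]
    simp
  · rw [if_neg h, if_pos (h1.2 h)]
    simp

theorem code_final {σ : List Move → Edge} {y : ℕ → Bool} (hL : Legal (run σ y)) :
    H (code (run σ y) y) ∈ Final (run σ y) := by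
  classical
  rw [mem_final hL]
  intro n
  rw [run_snd]
  by_cases hs : ∃ m, (run σ y n).1 = starE m
  · obtain ⟨m, hm⟩ := hs
    rw [hm, ans_star]
    have h1 : (starE m).1 ∈ (H (code (run σ y) y)).edgeSet ↔ code (run σ y) y m = true := by
      unfold starE
      rw [mk_mem, H_adj_leaf]
    rw [h1]
    by_cases hd : starE (par m) ∈ dom (hist (run σ y) n)
    · rw [if_pos hd]
      have hnf : ¬ Fst (run σ y) m := by
        rintro (⟨k, hk, hk'⟩ | ⟨hw, _⟩)
        · have : k = n := hL k n (by rw [hk, hm])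
          rw [this] at hk'
          exact hk' hd
        · exact hw n hm
      unfold code
      rw [if_neg hnf]
    · rw [if_neg hd]
      have hf : Fst (run σ y) m := Or.inl ⟨n, hm, hd⟩
      unfold code
      rw [if_pos hf]
  · push Not at hs
    exact ans_nonstar y _ hs _

/-- Toggling one edge. -/
def toggle (G : SimpleGraph ℕ) (a b : ℕ) (hab : a ≠ b) : SimpleGraph ℕ where
  Adj x y := (((x = a ∧ y = b) ∨ (x = b ∧ y = a)) ∧ ¬ G.Adj x y) ∨
    (¬ ((x = a ∧ y = b) ∨ (x = b ∧ y = a)) ∧ G.Adj x y)
  symm := ⟨by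
    intro x y h
    rcases h with ⟨h1, h2⟩ | ⟨h1, h2⟩
    · left
      refine ⟨?_, fun h3 => h2 h3.symm⟩
      tauto
    · right
      refine ⟨?_, h2.symm⟩
      tauto⟩
  loopless := ⟨by
    intro x h
    rcases h with ⟨h1, h2⟩ | ⟨h1, h2⟩
    · rcases h1 with h1 | h1 <;> exact hab (by omega)
    · exact h2.ne rfl⟩

theorem toggle_of_ne {G : SimpleGraph ℕ} {a b : ℕ} {hab : a ≠ b} {x y : ℕ}
    (h1 : ¬ (x = a ∧ y = b)) (h2 : ¬ (x = b ∧ y = a)) :
    (toggle G a b hab).Adj x y ↔ G.Adj x y := by
  change (((x = a ∧ y = b) ∨ (x = b ∧ y = a)) ∧ ¬ G.Adj x y) ∨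
    (¬ ((x = a ∧ y = b) ∨ (x = b ∧ y = a)) ∧ G.Adj x y) ↔ G.Adj x y
  tauto

theorem toggle_self {G : SimpleGraph ℕ} {a b : ℕ} {hab : a ≠ b} :
    (toggle G a b hab).Adj a b ↔ ¬ G.Adj a b := by
  change (((a = a ∧ b = b) ∨ (a = b ∧ b = a)) ∧ ¬ G.Adj a b) ∨
    (¬ ((a = a ∧ b = b) ∨ (a = b ∧ b = a)) ∧ G.Adj a b) ↔ ¬ G.Adj a b
  tauto

theorem toggle_final {f : ℕ → Move} (hL : Legal f) {G : SimpleGraph ℕ} (hG : G ∈ Final f)
    {a b : ℕ} {hab : a ≠ b} (hw : mk a b hab ∈ White f) : toggle G a b hab ∈ Final f := by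
  rw [mem_final hL] at hG ⊢
  intro n
  rw [← hG n]
  obtain ⟨x, y, hxy, hn⟩ := exists_mk (f n).1
  rw [hn, mk_mem, mk_mem]
  have hne : ¬ ((x = a ∧ y = b) ∨ (x = b ∧ y = a)) := by
    intro h
    apply hw n
    rw [hn]
    exact mk_eq.2 h
  push Not at hne
  exact toggle_of_ne (fun h => hne.1 h.1 h.2) (fun h => hne.2 h.1 h.2)

/-- Either `σ` is never winning, or there is a family of runs, one for each real, showing that
`σ` is not winning for any property containing the corresponding code. -/
theorem seeker_case (σ : List Move → Edge) : (∀ S, ¬ SeekerStrategyWins S σ) ∨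
    ∃ F : (ℕ → Bool) → (ℕ → Bool), (∀ w, {y | Near (F y) w}.Countable) ∧
      ∀ y, (∀ n, n % 2 = 0 → ¬ (F y (2 * n) = true ∧ F y (2 * n + 1) = true)) ∧
        ∀ W : Set (ℕ → Bool), F y ∈ W → (∀ m, F y (par m) = true → flip (F y) m ∉ W) →
          ¬ SeekerStrategyWins (SOf W) σ := by
  classical
  by_cases hgood : ∀ y, Legal (run σ y) ∧ (White (run σ y)).Nonempty
  swap
  · left
    intro S hS
    apply hgood
    intro y
    have := hS (run σ y) (run_fst σ y)
    exact ⟨this.1, this.2.1⟩
  right
  refine ⟨fun y => code (run σ y) y, ?_, ?_⟩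
  · intro w
    have hcover : {y | Near (code (run σ y) y) w} ⊆ ⋃ k : ℕ, {y | ∀ i, k ≤ i →
        y i = (w (2 * (2 * i + 1)) && w (2 * (2 * i + 1) + 1))} := by
      intro y hy
      obtain ⟨B, hB⟩ := Set.Finite.bddAbove hy
      refine Set.mem_iUnion.2 ⟨B + 1, ?_⟩
      intro i hi
      have h1 : ∀ m, B < m → w m = code (run σ y) y m := by
        intro m hm
        by_contra hne
        have := hB (show m ∈ {m | code (run σ y) y m ≠ w m} from fun h => hne h.symm)
        omega
      rw [h1 _ (by omega), h1 _ (by omega), code_pair]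
      unfold cl
      rw [if_neg (by omega)]
      congr 1
      omega
    refine Set.Countable.mono hcover (Set.countable_iUnion fun k => ?_)
    have hinj : Set.InjOn (fun (z : ℕ → Bool) => (fun i : Fin k => z i))
        {y | ∀ i, k ≤ i → y i = (w (2 * (2 * i + 1)) && w (2 * (2 * i + 1) + 1))} := by
      intro z hz z' hz' heq
      funext i
      by_cases hi : i < k
      · exact congrFun heq ⟨i, hi⟩
      · rw [hz i (by omega), hz' i (by omega)]
    exact Set.MapsTo.countable_of_injOn (t := Set.univ) (fun _ _ => Set.mem_univ _) hinj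
      (Set.to_countable _)
  · intro y
    refine ⟨?_, ?_⟩
    · rintro n hn ⟨h1, h2⟩
      have := code_pair (run σ y) y n
      change code (run σ y) y (2 * n) = true at h1
      change code (run σ y) y (2 * n + 1) = true at h2
      rw [h1, h2] at this
      unfold cl at this
      rw [if_pos (by omega)] at this
      simp at this
    · intro W hW hflip hwin
      obtain ⟨hL, hne⟩ := hgood y
      have hseek := (hwin (run σ y) (run_fst σ y)).2
      have hfin := code_final hL
      have hS : H (code (run σ y) y) ∈ SOf W := ⟨_, hW, ⟨SimpleGraph.Iso.refl⟩⟩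
      have hsub : Final (run σ y) ⊆ SOf W := by
        rcases hseek.2 with h | h
        · exact h
        · exfalso
          have : H (code (run σ y) y) ∈ Final (run σ y) ∩ SOf W := ⟨hfin, hS⟩
          rw [h] at this
          exact this
      obtain ⟨e, he⟩ := hne
      by_cases hs : ∃ m, e = starE m
      · obtain ⟨m, rfl⟩ := hs
        -- find a white star edge whose partner is green
        obtain ⟨m1, hm1, hp1⟩ : ∃ m1, starE m1 ∈ White (run σ y) ∧
            code (run σ y) y (par m1) = true := by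
          by_cases hF : Fst (run σ y) m
          · have hpar : starE (par m) ∈ White (run σ y) := by
              rcases hF with ⟨n, hn, _⟩ | ⟨_, h, _⟩
              · exact absurd hn (he n)
              · exact h
            refine ⟨par m, hpar, ?_⟩
            rw [par_par]
            unfold code
            rw [if_pos hF]
          · refine ⟨m, he, ?_⟩
            unfold code
            rw [if_pos (fst_iff.2 hF)]
        have h6 : (6 : ℕ) ≠ leaf m1 := by unfold leaf; omega
        have h1 := toggle_final hL hfin (a := 6) (b := leaf m1) (hab := h6) hm1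
        obtain ⟨w', hw', ⟨ψ⟩⟩ := hsub h1
        obtain ⟨χ⟩ : Nonempty (H (flip (code (run σ y) y) m1) ≃g
            toggle (H (code (run σ y) y)) 6 (leaf m1) h6) := by
          apply flip_iso (SimpleGraph.Iso.refl) m1
          · intro x z hx hz
            exact toggle_of_ne hx hz
          · exact toggle_self
        have : flip (code (run σ y) y) m1 = w' := w_unique (χ.trans ψ.symm)
        apply hflip m1 hp1
        rw [this]
        exact hw'
      · push Not at hs
        obtain ⟨a, b, hab, rfl⟩ := exists_mk e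
        have h1 := toggle_final hL hfin he
        obtain ⟨w', hw', ⟨ψ⟩⟩ := hsub h1
        refine toggle_nonstar (w := code (run σ y) y) (w' := w')
          (G := toggle (H (code (run σ y) y)) a b hab) hab ?_ ?_ ?_ ψ
        · intro m
          constructor
          · rintro ⟨h2, h3⟩
            exact hs m (mk_eq.2 (Or.inl ⟨h2, h3⟩))
          · rintro ⟨h2, h3⟩
            exact hs m (mk_eq.2 (Or.inr ⟨h3, h2⟩))
        · intro x z hx hz
          exact toggle_of_ne hx hz
        · exact toggle_self

end Pool.Agent.R612.EG
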