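import Pool.Agent.R612.EG.HiderB
import Pool.Agent.R612.EG.Seeker
import Pool.Agent.R612.EG.Diag

/-!
# An undetermined graph property
-/

namespace Pool.Agent.R612.EG

open Cardinal

theorem near_refl (w : ℕ → Bool) : Near w w := by simp [Near]

theorem near_symm {w w' : ℕ → Bool} (h : Near w w') : Near w' w := by
  refine Set.Finite.subset h ?_
  intro m hm h2
  exact hm h2.symm

theorem near_trans {w w' w'' : ℕ → Bool} (h : Near w w') (h' : Near w' w'') : Near w w'' := by
  refine Set.Finite.subset (Set.Finite.union h h') ?_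
  intro m hm
  by_contra hcon
  simp only [Set.mem_union, Set.mem_ofPred_eq, not_or, not_not] at hcon
  exact hm (hcon.1.trans hcon.2)

theorem near_flip (w : ℕ → Bool) (m : ℕ) : Near (flip w m) w := by
  refine (Set.finite_singleton m).subset ?_
  intro k hk
  by_contra hkm
  exact hk (flip_of_ne w hkm)

/-- The conjunction of the two bits of a pair. -/
def AA (w : ℕ → Bool) (n : ℕ) : Bool := w (2 * n) && w (2 * n + 1)

theorem AA_flip_of_ne (w : ℕ → Bool) {m n : ℕ} (h : n ≠ m / 2) : AA (flip w m) n = AA w n := by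
  unfold AA
  rw [flip_of_ne w (by omega), flip_of_ne w (by omega)]

theorem AA_half (w : ℕ → Bool) (m : ℕ) : AA w (m / 2) = (w m && w (par m)) := by
  unfold AA
  by_cases h : m % 2 = 0
  · have h1 : 2 * (m / 2) = m := by omega
    have h2 : par m = m + 1 := by unfold par; rw [if_pos h]
    rw [h1, h2]
  · have h1 : 2 * (m / 2) + 1 = m := by omega
    have h2 : par m = 2 * (m / 2) := by unfold par; rw [if_neg h]; omega
    rw [h1, ← h2, Bool.and_comm]

theorem AA_flip_false {w : ℕ → Bool} {m : ℕ} (h : w (par m) = false) :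
    ∀ n, AA (flip w m) n = AA w n := by
  intro n
  by_cases hn : n = m / 2
  · rw [hn, AA_half, AA_half, flip_of_ne w (par_ne m), h]
    simp
  · exact AA_flip_of_ne w hn

theorem AA_flip_true {w : ℕ → Bool} {m : ℕ} (h : w (par m) = true) :
    {n | AA (flip w m) n ≠ AA w n} = {m / 2} := by
  ext n
  simp only [Set.mem_ofPred_eq, Set.mem_singleton_iff]
  constructor
  · intro hn
    by_contra hne
    exact hn (AA_flip_of_ne w hne)
  · rintro rfl
    rw [AA_half, AA_half, flip_of_ne w (par_ne m), h, flip_self]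
    cases w m <;> simp

theorem isGraphProperty_SOf (W : Set (ℕ → Bool)) : IsGraphProperty (SOf W) := by
  rintro G G' ⟨φ⟩ ⟨w, hw, ⟨ψ⟩⟩
  exact ⟨w, hw, ⟨ψ.trans φ⟩⟩

/-- There is a graph property whose game is not determined. -/
theorem undetermined : ∃ S : Set (SimpleGraph ℕ), IsGraphProperty S ∧
    (¬ ∃ σ : List Move → Edge, SeekerStrategyWins S σ) ∧
    (¬ ∃ τ : List Move → Edge → Bool, HiderStrategyWins S τ) := by
  classical
  -- the index set
  let PS : (List Move → Edge) → ((ℕ → Bool) → (ℕ → Bool)) → Prop := fun σ F =>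
    (∀ w, {y | Near (F y) w}.Countable) ∧
      ∀ y, (∀ n, n % 2 = 0 → ¬ (F y (2 * n) = true ∧ F y (2 * n + 1) = true)) ∧
        ∀ W : Set (ℕ → Bool), F y ∈ W → (∀ m, F y (par m) = true → flip (F y) m ∉ W) →
          ¬ SeekerStrategyWins (SOf W) σ
  let PH : (List Move → Edge → Bool) → ((ℕ → Bool) → (ℕ → Bool)) → Prop := fun τ F =>
    (∀ w, {z | Near (F z) w}.Countable) ∧
      ∀ z, ∃ f, Follows τ f ∧ ∀ W : Set (ℕ → Bool), (∀ w ∈ W, ¬ Near (F z) w) →
        SeekerWins (SOf W) f
  let ΩS : Type := {σ : List Move → Edge // ∃ F, PS σ F}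
  let ΩH : Type := {τ : List Move → Edge → Bool // ∃ F, PH τ F}
  have hcS : #(List Move → Edge) ≤ 𝔠 := by
    rw [← Cardinal.power_def]
    calc #Edge ^ #(List Move) ≤ ℵ₀ ^ ℵ₀ := by
          refine (Cardinal.power_le_power_right Cardinal.mk_le_aleph0).trans ?_
          exact Cardinal.power_le_power_left Cardinal.aleph0_ne_zero Cardinal.mk_le_aleph0
      _ = 𝔠 := Cardinal.aleph0_power_aleph0
  have hcH : #(List Move → Edge → Bool) ≤ 𝔠 := by
    rw [Cardinal.mk_congr (Equiv.curry (List Move) Edge Bool).symm, ← Cardinal.power_def]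
    calc #Bool ^ #(List Move × Edge) ≤ ℵ₀ ^ ℵ₀ := by
          refine (Cardinal.power_le_power_right Cardinal.mk_le_aleph0).trans ?_
          exact Cardinal.power_le_power_left Cardinal.aleph0_ne_zero Cardinal.mk_le_aleph0
      _ = 𝔠 := Cardinal.aleph0_power_aleph0
  have hcard : #(ΩS ⊕ ΩH) ≤ 𝔠 := by
    rw [Cardinal.mk_sum, Cardinal.lift_id, Cardinal.lift_id]
    have h1 : #ΩS ≤ 𝔠 := (Cardinal.mk_subtype_le _).trans hcS
    have h2 : #ΩH ≤ 𝔠 := (Cardinal.mk_subtype_le _).trans hcH
    calc #ΩS + #ΩH ≤ 𝔠 + 𝔠 := add_le_add h1 h2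
      _ = 𝔠 := by simp
  let FS : ΩS → (ℕ → Bool) → (ℕ → Bool) := fun s => s.2.choose
  have hFS : ∀ s : ΩS, PS s.1 (FS s) := fun s => s.2.choose_spec
  let FH : ΩH → (ℕ → Bool) → (ℕ → Bool) := fun s => s.2.choose
  have hFH : ∀ s : ΩH, PH s.1 (FH s) := fun s => s.2.choose_spec
  obtain ⟨p, hp⟩ := diag hcard Near (fun _ _ h => near_symm h)
    (Sum.elim FS FH) (by
      rintro (s | s) w
      · exact (hFS s).1 w
      · exact (hFH s).1 w)
  let c : ΩS ⊕ ΩH → (ℕ → Bool) := fun ω => Sum.elim FS FH ω (p ω)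
  have hc : ∀ ω ω', ω ≠ ω' → ¬ Near (c ω) (c ω') := hp
  -- the set of codes
  let W : Set (ℕ → Bool) := {w | ∃ s : ΩS, Near w (c (Sum.inl s)) ∧
    Even {n | AA w n ≠ AA (c (Sum.inl s)) n}.ncard}
  have hinv : FlipInv W := by
    rintro w m hm ⟨s, h1, h2⟩
    refine ⟨s, near_trans (near_flip w m) h1, ?_⟩
    have : {n | AA (flip w m) n ≠ AA (c (Sum.inl s)) n} = {n | AA w n ≠ AA (c (Sum.inl s)) n} := by
      ext n
      simp only [Set.mem_ofPred_eq]
      rw [AA_flip_false hm n]
    rw [this]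
    exact h2
  have hty : TypeOne W := by
    rintro w ⟨s, h1, _⟩
    have hs := ((hFS s).2 (p (Sum.inl s))).1
    have hfin : (⋃ m ∈ {m | w m ≠ c (Sum.inl s) m}, ({m / 2} : Set ℕ)).Finite :=
      Set.Finite.biUnion h1 (fun _ _ => Set.finite_singleton _)
    refine hfin.subset ?_
    rintro n ⟨hn, h2, h3⟩
    simp only [Set.mem_iUnion, Set.mem_singleton_iff, exists_prop]
    by_contra hcon
    push Not at hcon
    apply hs n hn
    constructor
    · change c (Sum.inl s) (2 * n) = true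
      rw [← h2]
      by_contra hne
      exact hcon (2 * n) (fun h => hne h.symm) (by omega)
    · change c (Sum.inl s) (2 * n + 1) = true
      rw [← h3]
      by_contra hne
      exact hcon (2 * n + 1) (fun h => hne h.symm) (by omega)
  refine ⟨SOf W, isGraphProperty_SOf W, ?_, ?_⟩
  · rintro ⟨σ, hσ⟩
    rcases seeker_case σ with h | ⟨F, hF⟩
    · exact h _ hσ
    · let s : ΩS := ⟨σ, F, hF⟩
      have hs := ((hFS s).2 (p (Sum.inl s))).2 W
      refine hs ?_ ?_ hσ
      · refine ⟨s, near_refl _, ?_⟩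
        have : {n | AA (FS s (p (Sum.inl s))) n ≠ AA (c (Sum.inl s)) n} = ∅ := by
          ext n
          simp [c]
        rw [this]
        simp
      · rintro m hm ⟨s', h1, h2⟩
        have hss : s = s' := by
          by_contra hne
          apply hc (Sum.inl s) (Sum.inl s') (fun h => hne (Sum.inl.inj h))
          exact near_trans (near_symm (near_flip _ m)) h1
        rw [← hss] at h2
        have h3 : {n | AA (flip (FS s (p (Sum.inl s))) m) n ≠ AA (c (Sum.inl s)) n} = {m / 2} :=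
          AA_flip_true hm
        rw [h3, Set.ncard_singleton] at h2
        exact absurd h2 (by decide)
  · rintro ⟨τ, hτ⟩
    rcases hider_case τ with ⟨f, hf, hwin⟩ | ⟨F, hF⟩
    · exact hτ f hf.1 hf.2 (hwin W hinv hty)
    · let s : ΩH := ⟨τ, F, hF⟩
      obtain ⟨f, hf, hwin⟩ := (hFH s).2 (p (Sum.inr s))
      refine hτ f hf.1 hf.2 (hwin W ?_)
      rintro w ⟨s', h1, _⟩ hnear
      apply hc (Sum.inr s) (Sum.inl s') (by simp)
      exact near_trans hnear h1

end Pool.Agent.R612.EG
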